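import Pool.Agent.Lib.MP_4eb8d9_nt.H6.Indep

set_option autoImplicit false

namespace Pool.Agent.Results.MP_4eb8d9_nt.CounterFamily

open Filter Finset
open Pool.Agent.Lib.MP_4eb8d9_nt.Dis Pool.Agent.Lib.MP_4eb8d9_nt.H6

/-- `Λ = a_1^{b_1} ⋯ a_m^{b_m}`. -/
def Lam {m : ℕ} (a b : Fin m → ℤ) : ℚ := ∏ i, (a i : ℚ) ^ (b i)

/-- `B = max |b_i|`. -/
def maxExp {m : ℕ} (b : Fin m → ℤ) : ℕ := Finset.univ.sup fun i => (b i).natAbs

/-- The Lang–Waldschmidt inequality for the tuple `(a, b)`, with the constant `K` in the place of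
`C(ε)^m`, is violated. -/
def Violates (K ε : ℝ) {m : ℕ} (a b : Fin m → ℤ) : Prop :=
  |((Lam a b : ℚ) : ℝ) - 1| <
    K * (maxExp b : ℝ) / ((∏ i, |(b i : ℝ)|) * (∏ i, |(a i : ℝ)|)) ^ (1 + ε)

lemma E_card : E.card = 120 := by decide +kernel

lemma E_bound : ∀ e ∈ E, |e| ≤ 2670 := by decide +kernel

/-- The main theorem for `m = 120`. -/
theorem main120 (ε : ℝ) (hε0 : 0 ≤ ε) (hε : ε < 1 / 118) (K : ℝ) (hK : 0 < K) (N₀ : ℕ) :
    ∃ a b : Fin 120 → ℤ, (∀ i, (N₀ : ℤ) ≤ a i) ∧ (∀ i, a i ≠ 0) ∧ (∀ i j, |a i - a j| ≤ 5340) ∧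
      (∀ k : Fin 120 → ℤ, Lam a k = 1 → k = 0) ∧
      (∀ i, b i ≠ 0) ∧ Lam a b ≠ 1 ∧ Violates K ε a b := by
  classical
  obtain ⟨x, y, hxy⟩ := viol E Z E_symm E_zero Z_sub Z_card Z_ga 12 mem12 ga12
  have hcard : (E.card : ℝ) - 2 = 118 := by rw [E_card]; norm_num
  have h1 := hxy ε K hε0 (by rw [hcard]; linarith) hK
  obtain ⟨r, M, hM, hind⟩ := indep E
  obtain ⟨N₁, hN₁⟩ := eventually_atTop.1 h1
  set N : ℕ := r + M * (N₁ + N₀ + 2671) with hN
  have hNge : N₁ + N₀ + 2671 ≤ N := by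
    have : N₁ + N₀ + 2671 ≤ M * (N₁ + N₀ + 2671) := Nat.le_mul_of_pos_left _ hM
    omega
  obtain ⟨hb, -, hΛ, hlt⟩ := hN₁ N (by omega)
  have hne : ∀ e ∈ E, ((N : ℤ) - e) ≠ 0 := by
    intro e he
    have := abs_le.1 (E_bound e he)
    have h2 : (2671 : ℤ) ≤ N := by exact_mod_cast (by omega : 2671 ≤ N)
    omega
  have hindN := hind (N₁ + N₀ + 2671) hne
  let q : Fin 120 ≃ E := (finCongr E_card.symm).trans E.equivFin.symm
  have hprodQ : ∀ F : ℤ → ℚ, ∏ i : Fin 120, F (q i) = ∏ e ∈ E, F e := by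
    intro F
    rw [← Finset.prod_coe_sort E F]
    exact Equiv.prod_comp q (fun e : E => F e)
  have hprodR : ∀ F : ℤ → ℝ, ∏ i : Fin 120, F (q i) = ∏ e ∈ E, F e := by
    intro F
    rw [← Finset.prod_coe_sort E F]
    exact Equiv.prod_comp q (fun e : E => F e)
  have hLam : ∀ k : ℤ → ℤ, Lam (fun i : Fin 120 => (N : ℤ) - q i) (fun i => k (q i)) =
      ∏ e ∈ E, ((((N : ℤ) - e : ℤ) : ℚ) ^ (k e)) := by
    intro k
    unfold Lam
    exact hprodQ (fun e => (((N : ℤ) - e : ℤ) : ℚ) ^ (k e))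
  have hcast : (((∏ e ∈ E, ((((N : ℤ) - e : ℤ) : ℚ) ^ (x e + y e * (N : ℤ))) : ℚ)) : ℝ) =
      ∏ e ∈ E, ((((N : ℤ) - e : ℤ) : ℝ) ^ (x e + y e * (N : ℤ))) := by
    rw [Rat.cast_prod]
    refine Finset.prod_congr rfl fun e _ => ?_
    rw [Rat.cast_zpow, Rat.cast_intCast]
  refine ⟨fun i => (N : ℤ) - q i, fun i => x (q i) + y (q i) * (N : ℤ), ?_, ?_, ?_, ?_, ?_, ?_, ?_⟩
  · intro i
    have := abs_le.1 (E_bound (q i) (q i).2)
    have h2 : ((N₀ : ℤ) + 2671) ≤ N := by exact_mod_cast (by omega : N₀ + 2671 ≤ N)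
    show (N₀ : ℤ) ≤ (N : ℤ) - q i
    omega
  · intro i
    exact hne (q i) (q i).2
  · intro i j
    have h2 := E_bound (q i) (q i).2
    have h3 := E_bound (q j) (q j).2
    have h4 : ((N : ℤ) - q i) - ((N : ℤ) - q j) = (q j : ℤ) - q i := by ring
    show |((N : ℤ) - q i) - ((N : ℤ) - q j)| ≤ 5340
    rw [h4]
    refine (abs_sub _ _).trans ?_
    linarith
  · intro k hk
    let kk : ℤ → ℤ := fun e => if h : e ∈ E then k (q.symm ⟨e, h⟩) else 0
    have h2 : (fun i => kk (q i)) = k := by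
      funext i
      simp [kk]
    have hk' : Lam (fun i : Fin 120 => (N : ℤ) - q i) (fun i => kk (q i)) = 1 := by
      rw [h2]; exact hk
    rw [hLam kk] at hk'
    have h3 := hindN kk hk'
    funext i
    have h4 := h3 (q i) (q i).2
    rw [← h2]
    exact h4
  · intro i
    exact hb (q i) (q i).2
  · intro h
    rw [hLam (fun e => x e + y e * (N : ℤ))] at h
    apply hΛ
    rw [← hcast, h, Rat.cast_one]
  · unfold Violates
    rw [hLam (fun e => x e + y e * (N : ℤ)),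
      hprodR (fun e => |((x e + y e * (N : ℤ) : ℤ) : ℝ)|),
      hprodR (fun e => |(((N : ℤ) - e : ℤ) : ℝ)|)]
    rw [hcast]
    refine hlt.trans_le ?_
    apply div_le_div_of_nonneg_right
    · apply mul_le_mul_of_nonneg_left _ hK.le
      have h3 : (x (q (q.symm ⟨12, mem12⟩)) + y (q (q.symm ⟨12, mem12⟩)) * (N : ℤ)).natAbs ≤
          maxExp (fun i : Fin 120 => x (q i) + y (q i) * (N : ℤ)) :=
        Finset.le_sup (f := fun i : Fin 120 => (x (q i) + y (q i) * (N : ℤ)).natAbs)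
          (Finset.mem_univ (q.symm ⟨12, mem12⟩))
      rw [q.apply_symm_apply] at h3
      have h4 : (((x 12 + y 12 * (N : ℤ)).natAbs : ℕ) : ℝ) ≤
          (maxExp (fun i : Fin 120 => x (q i) + y (q i) * (N : ℤ)) : ℝ) := Nat.cast_le.2 h3
      have h5 : (((x 12 + y 12 * (N : ℤ)).natAbs : ℕ) : ℝ) =
          |((x 12 + y 12 * (N : ℤ) : ℤ) : ℝ)| := by
        rw [Nat.cast_natAbs, Int.cast_abs]
      rw [← h5]
      exact h4
    · exact Real.rpow_nonneg (mul_nonneg (Finset.prod_nonneg fun _ _ => abs_nonneg _)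
        (Finset.prod_nonneg fun _ _ => abs_nonneg _)) _

/-- Padding by `1 ^ 1`. -/
theorem pad (m : ℕ) (hm : 120 ≤ m) (ε K : ℝ) (a b : Fin 120 → ℤ) (ha : ∀ i, a i ≠ 0)
    (hb : ∀ i, b i ≠ 0) (hΛ : Lam a b ≠ 1) (hK : 0 < K) (hv : Violates K ε a b) :
    ∃ a' b' : Fin m → ℤ, (∀ i, a' i ≠ 0) ∧ (∀ i, b' i ≠ 0) ∧ Lam a' b' ≠ 1 ∧
      Violates K ε a' b' := by
  obtain ⟨n, rfl⟩ := Nat.exists_eq_add_of_le hm
  have e1 : Lam (Fin.append a fun _ : Fin n => (1 : ℤ)) (Fin.append b fun _ : Fin n => (1 : ℤ)) =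
      Lam a b := by
    unfold Lam
    rw [Fin.prod_univ_add]
    simp
  refine ⟨Fin.append a fun _ => 1, Fin.append b fun _ => 1, ?_, ?_, ?_, ?_⟩
  · intro i
    refine Fin.addCases (fun j => ?_) (fun j => ?_) i
    · simpa using ha j
    · simp
  · intro i
    refine Fin.addCases (fun j => ?_) (fun j => ?_) i
    · simpa using hb j
    · simp
  · rw [e1]; exact hΛ
  · unfold Violates at hv ⊢
    rw [e1]
    have e2 : ∏ i, |((Fin.append b fun _ : Fin n => (1 : ℤ)) i : ℝ)| = ∏ i, |(b i : ℝ)| := by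
      rw [Fin.prod_univ_add]
      simp
    have e3 : ∏ i, |((Fin.append a fun _ : Fin n => (1 : ℤ)) i : ℝ)| = ∏ i, |(a i : ℝ)| := by
      rw [Fin.prod_univ_add]
      simp
    rw [e2, e3]
    refine hv.trans_le ?_
    apply div_le_div_of_nonneg_right
    · apply mul_le_mul_of_nonneg_left _ hK.le
      have h2 : maxExp b ≤ maxExp (Fin.append b fun _ : Fin n => (1 : ℤ)) := by
        unfold maxExp
        apply Finset.sup_le
        intro i _
        have h3 := Finset.le_sup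
          (f := fun i : Fin (120 + n) => ((Fin.append b fun _ : Fin n => (1 : ℤ)) i).natAbs)
          (Finset.mem_univ (Fin.castAdd n i))
        simpa using h3
      exact_mod_cast h2
    · exact Real.rpow_nonneg (mul_nonneg (Finset.prod_nonneg fun _ _ => abs_nonneg _)
        (Finset.prod_nonneg fun _ _ => abs_nonneg _)) _

/-- **The Lang–Waldschmidt conjecture is false**, for every fixed `m ≥ 120`, every `ε < 1/118` and
with every constant in the place of `C(ε)^m`; for `m = 120` the `a_i` can be taken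
multiplicatively independent and as large as one likes in an interval of length `5340`. -/
theorem result :
    (∀ ε : ℝ, 0 ≤ ε → ε < 1 / 118 → ∀ K : ℝ, 0 < K → ∀ N₀ : ℕ,
      ∃ a b : Fin 120 → ℤ, (∀ i, (N₀ : ℤ) ≤ a i) ∧ (∀ i, a i ≠ 0) ∧
        (∀ i j, |a i - a j| ≤ 5340) ∧ (∀ k : Fin 120 → ℤ, Lam a k = 1 → k = 0) ∧
        (∀ i, b i ≠ 0) ∧ Lam a b ≠ 1 ∧ Violates K ε a b) ∧
    ∀ m : ℕ, 120 ≤ m → ∀ ε : ℝ, 0 ≤ ε → ε < 1 / 118 → ∀ K : ℝ, 0 < K →
      ∃ a b : Fin m → ℤ, (∀ i, a i ≠ 0) ∧ (∀ i, b i ≠ 0) ∧ Lam a b ≠ 1 ∧ Violates K ε a b := by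
  refine ⟨fun ε h0 h1 K hK N₀ => main120 ε h0 h1 K hK N₀, fun m hm ε h0 h1 K hK => ?_⟩
  obtain ⟨a, b, -, ha, -, -, hb, hΛ, hv⟩ := main120 ε h0 h1 K hK 0
  exact pad m hm ε K a b ha hb hΛ hK hv

end Pool.Agent.Results.MP_4eb8d9_nt.CounterFamily
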