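import Mathlib

set_option autoImplicit false

namespace Pool.Agent.Results.MP_4eb8d9_nt.EpsilonLoss

open Finset

/-- `X = |b_1 ⋯ b_m| · |a_1 ⋯ a_m|`, the quantity which the Lang-Waldschmidt statement raises to
the power `1 + ε`. -/
noncomputable def size {m : ℕ} (a b : Fin m → ℤ) : ℝ :=
  (∏ i, |((b i : ℤ) : ℝ)|) * (∏ i, |((a i : ℤ) : ℝ)|)

/-- `2 ^ (j + 2)` divides `3 ^ (2 ^ j) - 1` for `j ≥ 1`. -/
lemma two_pow_dvd (j : ℕ) (hj : 1 ≤ j) : 2 ^ (j + 2) ∣ 3 ^ (2 ^ j) - 1 := by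
  induction j, hj using Nat.le_induction with
  | base => decide
  | succ j hj ih =>
    have h1 : 3 ^ (2 ^ (j + 1)) - 1 = (3 ^ (2 ^ j) + 1) * (3 ^ (2 ^ j) - 1) := by
      rw [pow_succ 2 j, pow_mul]
      have := Nat.sq_sub_sq (3 ^ (2 ^ j)) 1
      simpa using this
    have h2 : 2 ∣ 3 ^ (2 ^ j) + 1 := by
      have h3 : Odd (3 ^ (2 ^ j)) := Odd.pow (by decide)
      exact (h3.add_one).two_dvd
    rw [h1, show j + 1 + 2 = (j + 2) + 1 by ring, pow_succ, mul_comm (2 ^ (j + 2)) 2]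
    exact Nat.mul_dvd_mul h2 ih

/-- The cofactor. -/
def zz (j : ℕ) : ℕ := (3 ^ (2 ^ j) - 1) / 2 ^ (j + 2)

lemma zz_mul (j : ℕ) (hj : 1 ≤ j) : 2 ^ (j + 2) * zz j = 3 ^ (2 ^ j) - 1 :=
  Nat.mul_div_cancel' (two_pow_dvd j hj)

lemma zz_mul_real (j : ℕ) (hj : 1 ≤ j) :
    (2 : ℝ) ^ (j + 2) * (zz j : ℝ) = (3 : ℝ) ^ (2 ^ j) - 1 := by
  have h := zz_mul j hj
  have h2 : 1 ≤ 3 ^ (2 ^ j) := Nat.one_le_pow _ _ (by norm_num)
  have h3 : ((2 ^ (j + 2) * zz j : ℕ) : ℝ) = ((3 ^ (2 ^ j) - 1 : ℕ) : ℝ) := by rw [h]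
  rw [Nat.cast_sub h2] at h3
  push_cast at h3
  exact h3

/-- The bases `2, 3, z`. -/
def aa (j : ℕ) : Fin 3 → ℤ := ![2, 3, (zz j : ℤ)]

/-- The exponents `j + 2, -2 ^ j, 1`. -/
def bb (j : ℕ) : Fin 3 → ℤ := ![(j : ℤ) + 2, -(2 ^ j : ℤ), 1]

lemma size_eq (j : ℕ) (hj : 1 ≤ j) :
    size (aa j) (bb j) = (3 / 2) * (j + 2) * ((3 : ℝ) ^ (2 ^ j) - 1) := by
  have h := zz_mul_real j hj
  unfold size aa bb
  simp only [Fin.prod_univ_three]
  simp
  rw [abs_of_nonneg (by positivity : (0 : ℝ) ≤ (j : ℝ) + 2)]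
  rw [← h, pow_add]
  ring

lemma prod_eq (j : ℕ) (hj : 1 ≤ j) :
    (∏ i, ((aa j i : ℝ) ^ (bb j i))) = 1 - ((3 : ℝ) ^ (2 ^ j))⁻¹ := by
  have h := zz_mul_real j hj
  have h1 : (2 : ℝ) ^ ((j : ℤ) + 2) = 2 ^ (j + 2) := by norm_cast
  have h2 : (3 : ℝ) ^ ((2 : ℤ) ^ j) = 3 ^ (2 ^ j) := by norm_cast
  have h3 : (3 : ℝ) ^ (2 ^ j) ≠ 0 := by positivity
  unfold aa bb
  simp only [Fin.prod_univ_three]
  simp only [Matrix.cons_val_zero, Matrix.cons_val_one, Matrix.cons_val, Int.cast_ofNat,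
    Int.cast_natCast, zpow_neg, zpow_one, h1, h2]
  rw [mul_right_comm, h]
  field_simp

lemma sup_eq (j : ℕ) (hj : 3 ≤ j) :
    ((Finset.univ.sup fun i => (bb j i).natAbs : ℕ) : ℝ) = 2 ^ j := by
  have h1 : ∀ n : ℕ, 3 ≤ n → n + 2 ≤ 2 ^ n := by
    intro n hn
    induction n, hn using Nat.le_induction with
    | base => norm_num
    | succ n hn ih => rw [pow_succ]; omega
  have h2 := h1 j hj
  have h3 : (Finset.univ.sup fun i => (bb j i).natAbs : ℕ) = 2 ^ j := by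
    have h4 : ((-(2 ^ j : ℤ)).natAbs) = 2 ^ j := by
      rw [Int.natAbs_neg, Int.natAbs_pow]; rfl
    have h5 : (((j : ℤ) + 2).natAbs) = j + 2 := by omega
    have h6 : (Finset.univ : Finset (Fin 3)) = {0, 1, 2} := by decide
    rw [h6]
    simp only [Finset.sup_insert, Finset.sup_singleton, bb, Matrix.cons_val_zero,
      Matrix.cons_val_one, Matrix.cons_val, h4, h5]
    apply le_antisymm
    · refine sup_le h2 (sup_le le_rfl ?_)
      simpa using Nat.one_le_two_pow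
    · exact le_sup_of_le_right le_sup_left
  rw [h3]; push_cast; rfl

lemma log_three_le : Real.log 3 ≤ 1.1 := by
  rw [Real.log_le_iff_le_exp (by norm_num)]
  have h1 : (1.105 : ℝ) ≤ Real.exp 0.1 := by
    have := Real.quadratic_le_exp_of_nonneg (x := 0.1) (by norm_num)
    norm_num at this ⊢
    linarith
  have h2 := Real.exp_one_gt_d9
  have h3 : Real.exp 1.1 = Real.exp 1 * Real.exp 0.1 := by rw [← Real.exp_add]; norm_num
  rw [h3]
  nlinarith

lemma two_pow_ge (j : ℕ) (hj : 18 ≤ j) : 100 * (j + 2) ^ 2 ≤ 2 ^ j := by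
  induction j, hj using Nat.le_induction with
  | base => norm_num
  | succ n hn ih => rw [pow_succ 2 n]; nlinarith

lemma three_pow_ge (j : ℕ) : (3 : ℝ) ≤ 3 ^ (2 ^ j) := by
  calc (3 : ℝ) = 3 ^ 1 := (pow_one 3).symm
    _ ≤ 3 ^ (2 ^ j) := pow_le_pow_right₀ (by norm_num) Nat.one_le_two_pow

lemma size_ge (j : ℕ) (hj : 1 ≤ j) : (3 : ℝ) ^ (2 ^ j) ≤ size (aa j) (bb j) := by
  rw [size_eq j hj]
  have h := three_pow_ge j
  have h2 : (1 : ℝ) ≤ j := by exact_mod_cast hj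
  nlinarith

/-- The numerical heart: for `j ≥ 18`, `(3/2)(j+2) log X ≤ 3 · 2 ^ j · log log X`. -/
lemma log_bound (j : ℕ) (hj : 18 ≤ j) :
    (3 / 2) * ((j : ℝ) + 2) * Real.log (size (aa j) (bb j)) ≤
      3 * 2 ^ j * Real.log (Real.log (size (aa j) (bb j))) := by
  set X := size (aa j) (bb j) with hX
  have hj' : (18 : ℝ) ≤ j := by exact_mod_cast hj
  have h1 : (3 : ℝ) ^ (2 ^ j) ≤ X := size_ge j (by omega)
  have h3 : (0 : ℝ) < 3 ^ (2 ^ j) := by positivity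
  have hXpos : 0 < X := lt_of_lt_of_le h3 h1
  have h2 : X ≤ (3 / 2 * (j + 2)) * 3 ^ (2 ^ j) := by
    rw [hX, size_eq j (by omega)]
    nlinarith
  have hn : (100 : ℝ) * (j + 2) ^ 2 ≤ 2 ^ j := by exact_mod_cast two_pow_ge j hj
  have hlog3 := log_three_le
  have hlog3' : (1 : ℝ) ≤ Real.log 3 := by
    rw [Real.le_log_iff_exp_le (by norm_num)]
    have := Real.exp_one_lt_d9
    linarith
  -- upper bound for `log X`
  have hup : Real.log X ≤ 2 ^ j * 1.1 + 3 / 2 * (j + 2) := by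
    calc Real.log X ≤ Real.log ((3 / 2 * (j + 2)) * 3 ^ (2 ^ j)) := Real.log_le_log hXpos h2
      _ = Real.log (3 / 2 * (j + 2)) + 2 ^ j * Real.log 3 := by
          rw [Real.log_mul (by positivity) h3.ne', Real.log_pow]; push_cast; ring
      _ ≤ 3 / 2 * (j + 2) + 2 ^ j * 1.1 := by
          have h4 := Real.log_le_sub_one_of_pos (show (0 : ℝ) < 3 / 2 * (j + 2) by positivity)
          have h5 : (2 : ℝ) ^ j * Real.log 3 ≤ 2 ^ j * 1.1 :=
            mul_le_mul_of_nonneg_left hlog3 (by positivity)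
          linarith
      _ = _ := by ring
  -- lower bound for `log X`
  have hlo : (2 : ℝ) ^ j ≤ Real.log X := by
    calc (2 : ℝ) ^ j ≤ 2 ^ j * Real.log 3 := le_mul_of_one_le_right (by positivity) hlog3'
      _ = Real.log (3 ^ (2 ^ j)) := by rw [Real.log_pow]; push_cast; ring
      _ ≤ Real.log X := Real.log_le_log h3 h1
  have hll : (j : ℝ) * 0.6931 ≤ Real.log (Real.log X) := by
    calc (j : ℝ) * 0.6931 ≤ j * Real.log 2 :=
          mul_le_mul_of_nonneg_left (by linarith [Real.log_two_gt_d9]) (by positivity)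
      _ = Real.log (2 ^ j) := by rw [Real.log_pow]
      _ ≤ _ := Real.log_le_log (by positivity) hlo
  set n : ℝ := (2 : ℝ) ^ j with hndef
  have hnpos : 0 < n := by positivity
  calc (3 / 2) * ((j : ℝ) + 2) * Real.log X
      ≤ (3 / 2) * ((j : ℝ) + 2) * (n * 1.1 + 3 / 2 * (j + 2)) :=
        mul_le_mul_of_nonneg_left hup (by positivity)
    _ ≤ 3 * n * (j * 0.6931) := by nlinarith
    _ ≤ 3 * n * Real.log (Real.log X) := mul_le_mul_of_nonneg_left hll (by positivity)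

lemma size_succ_le (j : ℕ) (hj : 1 ≤ j) :
    size (aa (j + 1)) (bb (j + 1)) ≤ (size (aa j) (bb j)) ^ 2 := by
  rw [size_eq j hj, size_eq (j + 1) (by omega)]
  have h := three_pow_ge j
  have h1 : (3 : ℝ) ^ (2 ^ (j + 1)) = (3 ^ (2 ^ j)) ^ 2 := by rw [← pow_mul, pow_succ]
  have hj' : (1 : ℝ) ≤ j := by exact_mod_cast hj
  rw [h1]
  push_cast
  set T : ℝ := 3 ^ (2 ^ j) with hT
  have h2 : (T + 1) ≤ 2 * (T - 1) := by linarith
  have h3 : (0 : ℝ) ≤ (j + 1 + 2) * (T - 1) := by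
    have : 0 ≤ T - 1 := by linarith
    positivity
  calc 3 / 2 * ((j : ℝ) + 1 + 2) * (T ^ 2 - 1) = 3 / 2 * (((j + 1 + 2) * (T - 1)) * (T + 1)) := by
        ring
    _ ≤ 3 / 2 * (((j + 1 + 2) * (T - 1)) * (2 * (T - 1))) := by
        have := mul_le_mul_of_nonneg_left h2 h3
        linarith
    _ ≤ (3 / 2 * ((j : ℝ) + 2) * (T - 1)) ^ 2 := by
        have h4 : (0 : ℝ) ≤ (T - 1) ^ 2 := sq_nonneg _
        nlinarith [mul_nonneg h4 (sq_nonneg (j : ℝ)), mul_nonneg h4 (by linarith : (0 : ℝ) ≤ j)]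

theorem result :
    ∃ N₀ : ℝ, ∀ N : ℝ, N₀ ≤ N → ∃ a b : Fin 3 → ℤ,
      (∀ i, a i ≠ 0) ∧ (∀ i, b i ≠ 0) ∧ (∏ i, ((a i : ℝ) ^ (b i))) ≠ 1 ∧
      N ≤ size a b ∧ size a b ≤ N ^ 2 ∧
      |(∏ i, ((a i : ℝ) ^ (b i))) - 1| ≤
        3 * (Real.log (Real.log (size a b)) / Real.log (size a b)) *
          (((Finset.univ.sup fun i => (b i).natAbs : ℕ) : ℝ) / size a b) := by
  -- it is enough to bound the size
  have key : ∀ j : ℕ, 18 ≤ j → ∀ N : ℝ, N ≤ size (aa j) (bb j) → size (aa j) (bb j) ≤ N ^ 2 →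
      ∃ a b : Fin 3 → ℤ,
      (∀ i, a i ≠ 0) ∧ (∀ i, b i ≠ 0) ∧ (∏ i, ((a i : ℝ) ^ (b i))) ≠ 1 ∧
      N ≤ size a b ∧ size a b ≤ N ^ 2 ∧
      |(∏ i, ((a i : ℝ) ^ (b i))) - 1| ≤
        3 * (Real.log (Real.log (size a b)) / Real.log (size a b)) *
          (((Finset.univ.sup fun i => (b i).natAbs : ℕ) : ℝ) / size a b) := by
    intro j hj N h1 h2
    have hz : zz j ≠ 0 := by
      intro h
      have h3 := zz_mul_real j (by omega)
      rw [h] at h3
      have h4 := three_pow_ge j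
      simp at h3
      linarith
    have h3 : (0 : ℝ) < 3 ^ (2 ^ j) := by positivity
    refine ⟨aa j, bb j, ?_, ?_, ?_, h1, h2, ?_⟩
    · intro i
      fin_cases i
      · simp [aa]
      · simp [aa]
      · simpa [aa] using hz
    · intro i
      fin_cases i
      · simp only [bb]
        change (j : ℤ) + 2 ≠ 0
        omega
      · simp [bb]
      · simp [bb]
    · rw [prod_eq j (by omega)]
      have : (0 : ℝ) < ((3 : ℝ) ^ (2 ^ j))⁻¹ := by positivity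
      linarith
    · rw [prod_eq j (by omega), sup_eq j (by omega)]
      have h4 : |1 - ((3 : ℝ) ^ (2 ^ j))⁻¹ - 1| = ((3 : ℝ) ^ (2 ^ j))⁻¹ := by
        rw [sub_sub_cancel_left, abs_neg, abs_of_pos (by positivity)]
      rw [h4]
      have h5 := log_bound j hj
      have h6 : size (aa j) (bb j) ≤ (3 / 2 * (j + 2)) * 3 ^ (2 ^ j) := by
        rw [size_eq j (by omega)]
        nlinarith
      have h7 := size_ge j (by omega)
      set X := size (aa j) (bb j) with hX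
      have hXpos : 0 < X := lt_of_lt_of_le h3 h7
      have h8 : (2 : ℝ) < X := by linarith [three_pow_ge j]
      have hlogpos : 0 < Real.log X := Real.log_pos (by linarith)
      rw [inv_eq_one_div, mul_assoc, div_mul_div_comm, mul_div_assoc', div_le_div_iff₀ h3
        (mul_pos hlogpos hXpos)]
      calc 1 * (Real.log X * X) ≤ Real.log X * ((3 / 2 * (j + 2)) * 3 ^ (2 ^ j)) := by
            rw [one_mul]; exact mul_le_mul_of_nonneg_left h6 hlogpos.le
        _ = (3 / 2 * ((j : ℝ) + 2) * Real.log X) * 3 ^ (2 ^ j) := by ring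
        _ ≤ (3 * 2 ^ j * Real.log (Real.log X)) * 3 ^ (2 ^ j) :=
            mul_le_mul_of_nonneg_right h5 h3.le
        _ = _ := by ring
  refine ⟨size (aa 18) (bb 18), ?_⟩
  intro N hN
  classical
  have hex : ∃ j : ℕ, 18 ≤ j ∧ N ≤ size (aa j) (bb j) := by
    obtain ⟨j, hj⟩ := exists_nat_ge N
    refine ⟨j + 18, by omega, hj.trans ?_⟩
    rw [size_eq (j + 18) (by omega)]
    have h1 := three_pow_ge (j + 18)
    push_cast
    have h2 : (0 : ℝ) ≤ j := Nat.cast_nonneg j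
    nlinarith
  set j := Nat.find hex with hjdef
  obtain ⟨hj18, hjN⟩ := Nat.find_spec hex
  rw [← hjdef] at hj18 hjN
  have hN1 : 1 ≤ N := by
    have h1 := size_ge 18 (by norm_num)
    have h2 := three_pow_ge 18
    linarith
  refine key j hj18 N hjN ?_
  rcases Nat.eq_or_lt_of_le hj18 with h | h
  · rw [← h]
    nlinarith
  · have h1 : ¬ (18 ≤ j - 1 ∧ N ≤ size (aa (j - 1)) (bb (j - 1))) :=
      Nat.find_min hex (by omega)
    have h2 : size (aa (j - 1)) (bb (j - 1)) < N := by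
      by_contra h3
      exact h1 ⟨by omega, not_lt.mp h3⟩
    have h3 := size_succ_le (j - 1) (by omega)
    rw [show j - 1 + 1 = j by omega] at h3
    have h4 : 0 ≤ size (aa (j - 1)) (bb (j - 1)) := by unfold size; positivity
    calc size (aa j) (bb j) ≤ (size (aa (j - 1)) (bb (j - 1))) ^ 2 := h3
      _ ≤ N ^ 2 := by gcongr

end Pool.Agent.Results.MP_4eb8d9_nt.EpsilonLoss
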