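import Mathlib

set_option autoImplicit false

namespace Pool.Agent.Results.MP_4eb8d9_nt.PolynomialValues

open Finset

/-! ### The analytic core -/

section Core

variable {J : Type*} [Fintype J] (θ : J → ℂ) (β : J → ℤ) (N ρ B : ℝ)

/-- The tail estimate. -/
lemma tail_bound (hρ : 1 ≤ ρ) (hθ : ∀ j, ‖θ j‖ ≤ ρ) (hβ : ∀ j, |(β j : ℝ)| ≤ B) (hB : 1 ≤ B)
    (k : ℕ) (hk : k < Fintype.card J)
    (hN : 8 * (Fintype.card J : ℝ) * B * ρ ^ (Fintype.card J) ≤ N) :
    ‖(∑ j, (β j : ℂ) * Complex.log (1 - θ j / N)) +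
        ∑ i ∈ Finset.range (k + 1), ∑ j, (β j : ℂ) * ((θ j / N) ^ i / (i : ℂ))‖ ≤
      1 / (7 * (k + 1) * N ^ k) := by
  set D : ℝ := (Fintype.card J : ℝ) with hD
  have hD1 : 1 ≤ D := by
    rw [hD]; exact_mod_cast (by omega : 1 ≤ Fintype.card J)
  have hρD : ρ ≤ ρ ^ (Fintype.card J) := by
    calc ρ = ρ ^ 1 := (pow_one ρ).symm
      _ ≤ ρ ^ (Fintype.card J) := pow_le_pow_right₀ hρ (by omega)
  have hρk : ρ ^ (k + 1) ≤ ρ ^ (Fintype.card J) := pow_le_pow_right₀ hρ (by omega)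
  have hDB : 1 ≤ D * B := by nlinarith
  have hN8 : 8 * (D * B) * ρ ≤ N := by
    refine le_trans ?_ hN
    have : 8 * (D * B) * ρ ≤ 8 * (D * B) * ρ ^ (Fintype.card J) :=
      mul_le_mul_of_nonneg_left hρD (by linarith)
    linarith
  have hN8' : 8 * ρ ≤ N := by nlinarith
  have hNpos : 0 < N := by linarith
  set q : ℝ := ρ / N with hq
  have hqpos : 0 < q := by positivity
  have hq8 : q ≤ 1 / 8 := by
    rw [hq, div_le_div_iff₀ hNpos (by norm_num)]; linarith
  have hz : ∀ j, ‖θ j / (N : ℂ)‖ ≤ q := by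
    intro j
    rw [norm_div, Complex.norm_real, Real.norm_of_nonneg hNpos.le]
    exact div_le_div_of_nonneg_right (hθ j) hNpos.le
  have hz1 : ∀ j, ‖θ j / (N : ℂ)‖ < 1 := fun j => lt_of_le_of_lt (hz j) (by linarith)
  -- the series
  have hsum : HasSum (fun n : ℕ => ∑ j, (β j : ℂ) * ((θ j / N) ^ n / (n : ℂ)))
      (∑ j, (β j : ℂ) * (-Complex.log (1 - θ j / N))) :=
    hasSum_sum fun j _ => (Complex.hasSum_taylorSeries_neg_log (hz1 j)).mul_left _
  have htail := (hasSum_nat_add_iff' (k + 1)).mpr hsum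
  have hgeo : HasSum (fun n : ℕ => (D * B * q ^ (k + 1) / (k + 1)) * q ^ n)
      ((D * B * q ^ (k + 1) / (k + 1)) * (1 - q)⁻¹) :=
    (hasSum_geometric_of_lt_one hqpos.le (by linarith)).mul_left _
  have hbd := HasSum.norm_le_of_bounded htail hgeo (by
    intro n
    calc ‖∑ j, (β j : ℂ) * ((θ j / N) ^ (n + (k + 1)) / ((n + (k + 1) : ℕ) : ℂ))‖
        ≤ ∑ j, ‖(β j : ℂ) * ((θ j / N) ^ (n + (k + 1)) / ((n + (k + 1) : ℕ) : ℂ))‖ :=
          norm_sum_le _ _
      _ ≤ ∑ _j : J, B * (q ^ (n + (k + 1)) / (k + 1)) := by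
          refine Finset.sum_le_sum fun j _ => ?_
          rw [norm_mul, norm_div, norm_pow, Complex.norm_intCast, Complex.norm_natCast]
          have h1 : ‖θ j / (N : ℂ)‖ ^ (n + (k + 1)) ≤ q ^ (n + (k + 1)) :=
            pow_le_pow_left₀ (norm_nonneg _) (hz j) _
          have h2 : ((k : ℝ) + 1) ≤ ((n + (k + 1) : ℕ) : ℝ) := by push_cast; linarith [Nat.cast_nonneg (α := ℝ) n]
          have h3 : ‖θ j / (N : ℂ)‖ ^ (n + (k + 1)) / ((n + (k + 1) : ℕ) : ℝ) ≤
              q ^ (n + (k + 1)) / (k + 1) :=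
            div_le_div₀ (by positivity) h1 (by positivity) h2
          exact mul_le_mul (hβ j) h3 (by positivity) (by linarith)
      _ = (D * B * q ^ (k + 1) / (k + 1)) * q ^ n := by
          rw [Finset.sum_const, Finset.card_univ, nsmul_eq_mul, ← hD, pow_add]
          ring)
  have hfin : (D * B * q ^ (k + 1) / (k + 1)) * (1 - q)⁻¹ ≤ 1 / (7 * (k + 1) * N ^ k) := by
    have h1 : D * B * q ^ (k + 1) ≤ 1 / (8 * N ^ k) := by
      rw [hq, div_pow, ← mul_div_assoc, div_le_div_iff₀ (by positivity) (by positivity)]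
      have h2 : 8 * (D * B * ρ ^ (k + 1)) ≤ N := by
        refine le_trans ?_ hN
        have : D * B * ρ ^ (k + 1) ≤ D * B * ρ ^ (Fintype.card J) :=
          mul_le_mul_of_nonneg_left hρk (by linarith)
        linarith
      have h3 : 0 < N ^ k := by positivity
      calc D * B * ρ ^ (k + 1) * (8 * N ^ k) = 8 * (D * B * ρ ^ (k + 1)) * N ^ k := by ring
        _ ≤ N * N ^ k := mul_le_mul_of_nonneg_right h2 h3.le
        _ = 1 * N ^ (k + 1) := by ring
    have h4 : (1 - q)⁻¹ ≤ 8 / 7 := by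
      rw [inv_le_comm₀ (by linarith) (by norm_num)]
      linarith
    have h5 : (0 : ℝ) < k + 1 := by positivity
    calc (D * B * q ^ (k + 1) / (k + 1)) * (1 - q)⁻¹
        ≤ ((1 / (8 * N ^ k)) / (k + 1)) * (8 / 7) := by
          refine mul_le_mul (div_le_div_of_nonneg_right h1 h5.le) h4
            (inv_nonneg.mpr (by linarith)) (by positivity)
      _ = 1 / (7 * (k + 1) * N ^ k) := by field_simp
  have heq : ‖(∑ j, (β j : ℂ) * Complex.log (1 - θ j / N)) +
        ∑ i ∈ Finset.range (k + 1), ∑ j, (β j : ℂ) * ((θ j / N) ^ i / (i : ℂ))‖ =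
      ‖(∑ j, (β j : ℂ) * (-Complex.log (1 - θ j / N))) -
        ∑ i ∈ Finset.range (k + 1), ∑ j, (β j : ℂ) * ((θ j / N) ^ i / (i : ℂ))‖ := by
    rw [← norm_neg]
    congr 1
    simp only [mul_neg, Finset.sum_neg_distrib]
    ring
  rw [heq]
  exact hbd.trans hfin

lemma term_eq (s : ℕ → ℤ) (hs : ∀ k, ∑ j, (β j : ℂ) * θ j ^ k = s k) (i : ℕ) :
    ∑ j, (β j : ℂ) * ((θ j / N) ^ i / (i : ℂ)) = (s i : ℂ) / ((N : ℂ) ^ i * i) := by
  rw [← hs i, Finset.sum_div]
  refine Finset.sum_congr rfl fun j _ => ?_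
  rw [div_pow, div_div, mul_div_assoc]

/-- The lower bound for the logarithmic form. -/
lemma core_bound (hρ : 1 ≤ ρ) (hθ : ∀ j, ‖θ j‖ ≤ ρ) (hβ : ∀ j, |(β j : ℝ)| ≤ B) (hB : 1 ≤ B)
    (s : ℕ → ℤ) (hs : ∀ k, ∑ j, (β j : ℂ) * θ j ^ k = s k)
    (k₀ : ℕ) (hk₀ : k₀ < Fintype.card J) (hsk₀ : s k₀ ≠ 0)
    (hN : 8 * (Fintype.card J : ℝ) * B * ρ ^ (Fintype.card J) ≤ N) :
    1 / (2 * (Fintype.card J : ℝ) * N ^ (Fintype.card J - 1)) ≤
      |∑ j, (β j : ℝ) * Real.log ‖(N : ℂ) - θ j‖| := by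
  classical
  have hex : ∃ k, s k ≠ 0 := ⟨k₀, hsk₀⟩
  set k := Nat.find hex with hk
  have hsk : s k ≠ 0 := Nat.find_spec hex
  have hmin : ∀ i < k, s i = 0 := fun i hi => by
    by_contra h
    exact Nat.find_min hex hi h
  have hkD : k < Fintype.card J := lt_of_le_of_lt (Nat.find_min' hex hsk₀) hk₀
  have htail := tail_bound θ β N ρ B hρ hθ hβ hB k hkD hN
  set D : ℝ := (Fintype.card J : ℝ) with hD
  have hD1 : 1 ≤ D := by
    rw [hD]; exact_mod_cast (by omega : 1 ≤ Fintype.card J)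
  have hρD : ρ ≤ ρ ^ (Fintype.card J) := by
    calc ρ = ρ ^ 1 := (pow_one ρ).symm
      _ ≤ ρ ^ (Fintype.card J) := pow_le_pow_right₀ hρ (by omega)
  have hDB : 1 ≤ D * B := by nlinarith
  have hN8 : 8 * (D * B) * ρ ≤ N := by
    refine le_trans ?_ hN
    have : 8 * (D * B) * ρ ≤ 8 * (D * B) * ρ ^ (Fintype.card J) :=
      mul_le_mul_of_nonneg_left hρD (by linarith)
    linarith
  have hN8' : 8 * ρ ≤ N := by nlinarith
  have hN8'' : 8 ≤ N := by linarith
  have hNpos : 0 < N := by linarith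
  have hNC : (N : ℂ) ≠ 0 := by exact_mod_cast hNpos.ne'
  -- splitting the logarithms
  have hlog : ∀ j, Real.log ‖(N : ℂ) - θ j‖ =
      Real.log N + (Complex.log (1 - θ j / N)).re := by
    intro j
    have h1 : (N : ℂ) - θ j = N * (1 - θ j / N) := by field_simp
    have hz : ‖θ j / (N : ℂ)‖ < 1 := by
      rw [norm_div, Complex.norm_real, Real.norm_of_nonneg hNpos.le, div_lt_one hNpos]
      linarith [hθ j]
    have h2 : 1 - θ j / (N : ℂ) ≠ 0 := by
      intro h
      have h3 : θ j / (N : ℂ) = 1 := by linear_combination -h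
      rw [h3, norm_one] at hz
      exact lt_irrefl _ hz
    rw [h1, norm_mul, Complex.norm_real, Real.norm_of_nonneg hNpos.le,
      Real.log_mul hNpos.ne' (norm_ne_zero_iff.mpr h2), Complex.log_re]
  set W : ℂ := ∑ j, (β j : ℂ) * Complex.log (1 - θ j / N) with hW
  have hL : ∑ j, (β j : ℝ) * Real.log ‖(N : ℂ) - θ j‖ = (s 0 : ℝ) * Real.log N + W.re := by
    have h0 : ((∑ j, (β j : ℝ) : ℝ) : ℂ) = ((s 0 : ℝ) : ℂ) := by
      have := hs 0
      simp only [pow_zero, mul_one] at this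
      push_cast
      exact this
    have h0' : ∑ j, (β j : ℝ) = (s 0 : ℝ) := by exact_mod_cast h0
    calc ∑ j, (β j : ℝ) * Real.log ‖(N : ℂ) - θ j‖
        = ∑ j, ((β j : ℝ) * Real.log N + (β j : ℝ) * (Complex.log (1 - θ j / N)).re) := by
          refine Finset.sum_congr rfl fun j _ => ?_
          rw [hlog j]; ring
      _ = (∑ j, (β j : ℝ)) * Real.log N + ∑ j, (β j : ℝ) * (Complex.log (1 - θ j / N)).re := by
          rw [Finset.sum_add_distrib, Finset.sum_mul]
      _ = (s 0 : ℝ) * Real.log N + W.re := by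
          rw [h0', hW, Complex.re_sum]
          congr 1
          refine Finset.sum_congr rfl fun j _ => ?_
          rw [← Complex.ofReal_intCast, Complex.re_ofReal_mul]
  rw [hL]
  have hpow : (1 : ℝ) ≤ N ^ (Fintype.card J - 1) := one_le_pow₀ (by linarith)
  rcases Nat.eq_zero_or_pos k with hk0 | hkpos
  · -- the degrees do not balance
    rw [hk0] at htail hsk
    have h1 : ‖W‖ ≤ 1 / 7 := by
      have h2 : ∑ i ∈ Finset.range (0 + 1), ∑ j, (β j : ℂ) * ((θ j / N) ^ i / (i : ℂ)) = 0 := by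
        simp
      rw [h2, add_zero] at htail
      refine htail.trans ?_
      norm_num
    have h2 : |W.re| ≤ 1 / 7 := (Complex.abs_re_le_norm W).trans h1
    have h3 : (1 : ℝ) ≤ |(s 0 : ℝ)| := by exact_mod_cast Int.one_le_abs hsk
    have h4 : (2 : ℝ) ≤ Real.log N := by
      rw [Real.le_log_iff_exp_le hNpos]
      have h5 := Real.exp_one_lt_d9
      have h6 : Real.exp 2 = Real.exp 1 * Real.exp 1 := by rw [← Real.exp_add]; norm_num
      rw [h6]
      nlinarith [Real.exp_pos 1]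
    have h5 : (1 : ℝ) ≤ |(s 0 : ℝ) * Real.log N + W.re| := by
      have h6 : |(s 0 : ℝ) * Real.log N| ≤ |(s 0 : ℝ) * Real.log N + W.re| + |W.re| := by
        have := abs_sub ((s 0 : ℝ) * Real.log N + W.re) W.re
        simpa using this
      rw [abs_mul, abs_of_nonneg (by linarith : (0 : ℝ) ≤ Real.log N)] at h6
      nlinarith
    refine le_trans ?_ h5
    rw [div_le_one (by positivity)]
    nlinarith
  · -- the degrees balance
    have hs0 : s 0 = 0 := hmin 0 hkpos
    rw [hs0, Int.cast_zero, zero_mul, zero_add]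
    have hsum : ∑ i ∈ Finset.range (k + 1), ∑ j, (β j : ℂ) * ((θ j / N) ^ i / (i : ℂ)) =
        (s k : ℂ) / ((N : ℂ) ^ k * k) := by
      rw [Finset.sum_range_succ, term_eq θ β N s hs k, Finset.sum_eq_zero, zero_add]
      intro i hi
      rw [term_eq θ β N s hs i, hmin i (Finset.mem_range.mp hi)]
      simp
    rw [hsum] at htail
    have hre : ((s k : ℂ) / ((N : ℂ) ^ k * k)).re = (s k : ℝ) / (N ^ k * k) := by
      have : ((s k : ℂ) / ((N : ℂ) ^ k * k)) = (((s k : ℝ) / (N ^ k * k) : ℝ) : ℂ) := by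
        push_cast; rfl
      rw [this, Complex.ofReal_re]
    have h1 : |W.re + (s k : ℝ) / (N ^ k * k)| ≤ 1 / (7 * (k + 1) * N ^ k) := by
      rw [← hre, ← Complex.add_re]
      exact (Complex.abs_re_le_norm _).trans htail
    have hk1 : (1 : ℝ) ≤ k := by exact_mod_cast hkpos
    have hNk : 0 < N ^ k := by positivity
    have h2 : 1 / (k * N ^ k) ≤ |(s k : ℝ) / (N ^ k * k)| := by
      rw [abs_div, abs_of_pos (by positivity : 0 < N ^ k * (k : ℝ)), mul_comm (N ^ k)]
      have h3 : (1 : ℝ) ≤ |(s k : ℝ)| := by exact_mod_cast Int.one_le_abs hsk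
      exact div_le_div_of_nonneg_right h3 (by positivity)
    have h3 : |(s k : ℝ) / (N ^ k * k)| ≤ |W.re| + |W.re + (s k : ℝ) / (N ^ k * k)| := by
      have := abs_sub (W.re + (s k : ℝ) / (N ^ k * k)) W.re
      rw [add_sub_cancel_left] at this
      linarith
    have h4 : 1 / (7 * ((k : ℝ) + 1) * N ^ k) ≤ 1 / (7 * (k * N ^ k)) := by
      apply one_div_le_one_div_of_le (by positivity)
      nlinarith
    have h5 : 1 / (7 * (k * N ^ k)) = (1 / 7) * (1 / ((k : ℝ) * N ^ k)) := by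
      rw [one_div_mul_one_div]
    have h6 : (1 / 2) * (1 / ((k : ℝ) * N ^ k)) ≤ |W.re| := by
      have h7 : 0 < 1 / ((k : ℝ) * N ^ k) := by positivity
      nlinarith
    refine le_trans ?_ h6
    rw [one_div_mul_one_div]
    apply one_div_le_one_div_of_le (by positivity)
    have h7 : N ^ k ≤ N ^ (Fintype.card J - 1) := pow_le_pow_right₀ (by linarith) (by omega)
    have h8 : (k : ℝ) ≤ D := by rw [hD]; exact_mod_cast hkD.le
    calc 2 * ((k : ℝ) * N ^ k) ≤ 2 * (D * N ^ (Fintype.card J - 1)) := by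
          have := mul_le_mul h8 h7 hNk.le (by linarith)
          linarith
      _ = 2 * D * N ^ (Fintype.card J - 1) := by ring

end Core

/-! ### A nonzero power sum -/

lemma exists_power_sum_ne {J : Type*} [Fintype J] [Nonempty J] (θ : J → ℂ) (β : J → ℤ)
    (hβ : ∀ j, β j ≠ 0) (hfib : ∀ i j, θ i = θ j → β i = β j) :
    ∃ k < Fintype.card J, ∑ j, (β j : ℂ) * θ j ^ k ≠ 0 := by
  classical
  by_contra hcon
  push Not at hcon
  set T : Finset ℂ := Finset.univ.image θ with hT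
  have hTcard : T.card ≤ Fintype.card J := by
    calc T.card ≤ (Finset.univ : Finset J).card := Finset.card_image_le
      _ = Fintype.card J := Finset.card_univ
  set f : Fin T.card → ℂ := fun i => ((T.equivFin).symm i : ℂ) with hf
  have hfinj : Function.Injective f := by
    intro i i' h
    exact (T.equivFin).symm.injective (Subtype.ext h)
  set v : Fin T.card → ℂ := fun i => ∑ j ∈ Finset.univ.filter (fun j => θ j = f i), (β j : ℂ)
    with hv
  have hzero : v = 0 := by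
    refine Matrix.eq_zero_of_forall_pow_sum_mul_pow_eq_zero hfinj ?_
    intro i
    have h1 := hcon i (lt_of_lt_of_le i.2 hTcard)
    have h2 : ∑ j, (β j : ℂ) * θ j ^ (i : ℕ) =
        ∑ t ∈ T, ∑ j ∈ Finset.univ.filter (fun j => θ j = t), (β j : ℂ) * θ j ^ (i : ℕ) := by
      rw [Finset.sum_fiberwise_of_maps_to]
      intro j _
      exact Finset.mem_image_of_mem _ (Finset.mem_univ j)
    have h3 : ∑ j, v j * f j ^ (i : ℕ) =
        ∑ t ∈ T, ∑ j ∈ Finset.univ.filter (fun j => θ j = t), (β j : ℂ) * θ j ^ (i : ℕ) := by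
      rw [← Finset.sum_coe_sort T, ← Equiv.sum_comp (T.equivFin).symm]
      refine Finset.sum_congr rfl fun j _ => ?_
      rw [hv]
      simp only
      rw [Finset.sum_mul]
      refine Finset.sum_congr rfl fun j' hj' => ?_
      rw [(Finset.mem_filter.mp hj').2]
    rw [h3, ← h2, h1]
  obtain ⟨j₀⟩ := (inferInstance : Nonempty J)
  have hmem : θ j₀ ∈ T := Finset.mem_image_of_mem _ (Finset.mem_univ j₀)
  have h4 : v (T.equivFin ⟨θ j₀, hmem⟩) = 0 := by rw [hzero]; rfl
  have h5 : f (T.equivFin ⟨θ j₀, hmem⟩) = θ j₀ := by simp [hf]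
  rw [hv] at h4
  simp only [h5] at h4
  have h6 : ∑ j ∈ Finset.univ.filter (fun j => θ j = θ j₀), (β j : ℂ) =
      ((Finset.univ.filter (fun j => θ j = θ j₀)).card : ℂ) * (β j₀ : ℂ) := by
    rw [← nsmul_eq_mul, ← Finset.sum_const]
    refine Finset.sum_congr rfl fun j hj => ?_
    rw [hfib j j₀ (Finset.mem_filter.mp hj).2]
  rw [h6] at h4
  rcases mul_eq_zero.mp h4 with h7 | h7
  · have h8 : (Finset.univ.filter (fun j => θ j = θ j₀)).card = 0 := by exact_mod_cast h7
    rw [Finset.card_eq_zero] at h8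
    have h9 : j₀ ∈ Finset.univ.filter (fun j => θ j = θ j₀) := by simp
    rw [h8] at h9
    exact absurd h9 (Finset.notMem_empty _)
  · exact hβ j₀ (by exact_mod_cast h7)

/-! ### Power sums of the roots of a monic integer polynomial are integers -/

lemma exists_fin_map (s : Multiset ℂ) (n : ℕ) (h : s.card = n) :
    ∃ f : Fin n → ℂ, Multiset.map f Finset.univ.val = s := by
  subst h
  refine ⟨fun i => s.toList.get (i.cast (by simp)), ?_⟩
  rw [Fin.univ_val_map]
  conv_rhs => rw [← Multiset.coe_toList s]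
  congr 1
  apply List.ext_get
  · simp
  · intro n h1 h2
    simp

open MvPolynomial in
lemma psum_mem {n : ℕ} (f : Fin n → ℂ)
    (h : ∀ j, aeval f (esymm (Fin n) ℤ j) ∈ (Int.castRingHom ℂ).range) (k : ℕ) :
    aeval f (psum (Fin n) ℤ k) ∈ (Int.castRingHom ℂ).range := by
  induction k using Nat.strong_induction_on with
  | _ k ih =>
    rcases Nat.eq_zero_or_pos k with h0 | hpos
    · rw [h0, psum_zero]
      simp only [Fintype.card_fin, map_natCast]
      exact ⟨(n : ℤ), by simp⟩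
    · rw [psum_eq_mul_esymm_sub_sum _ _ k hpos, map_sub, map_sum]
      refine Subring.sub_mem _ ?_ (Subring.sum_mem _ ?_)
      · rw [map_mul, map_mul, map_pow, map_neg, map_one, map_natCast]
        refine Subring.mul_mem _ (Subring.mul_mem _ (Subring.pow_mem _ ?_ _) ?_) (h k)
        · exact ⟨-1, by simp⟩
        · exact ⟨(k : ℤ), by simp⟩
      · intro a ha
        rw [map_mul, map_mul, map_pow, map_neg, map_one]
        obtain ⟨h1, h2⟩ := Finset.mem_filter.mp ha
        have h3 := Finset.HasAntidiagonal.mem_antidiagonal.mp h1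
        have h4 : a.2 < k := by have := h2.1; omega
        refine Subring.mul_mem _ (Subring.mul_mem _ (Subring.pow_mem _ ?_ _) (h a.1)) (ih a.2 h4)
        exact ⟨-1, by simp⟩

open Polynomial in
/-- The roots of a monic integer polynomial, as a finite family with integral power sums. -/
lemma exists_roots (P : ℤ[X]) (hP : P.Monic) :
    ∃ f : Fin P.natDegree → ℂ,
      (∀ x : ℤ, ((P.eval x : ℤ) : ℂ) = ∏ j, ((x : ℂ) - f j)) ∧
      (∀ j, (P.map (Int.castRingHom ℂ)).IsRoot (f j)) ∧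
      ∀ k : ℕ, ∃ z : ℤ, ∑ j, f j ^ k = (z : ℂ) := by
  set Q := P.map (Int.castRingHom ℂ) with hQ
  have hQm : Q.Monic := hP.map _
  have hdeg : Q.natDegree = P.natDegree := hP.natDegree_map _
  have hcard : Q.roots.card = Q.natDegree := IsAlgClosed.card_roots_eq_natDegree
  obtain ⟨f, hf⟩ := exists_fin_map Q.roots P.natDegree (by rw [hcard, hdeg])
  refine ⟨f, ?_, ?_, ?_⟩
  · intro x
    have h1 := (IsAlgClosed.splits Q).eval_eq_prod_roots (x : ℂ)
    rw [hQm.leadingCoeff, one_mul, ← hf, Multiset.map_map] at h1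
    have h2 : Q.eval (x : ℂ) = ((P.eval x : ℤ) : ℂ) := by
      rw [hQ, eval_intCast_map]
      simp
    rw [← h2, h1]
    rfl
  · intro j
    have h1 : f j ∈ Q.roots := by
      rw [← hf]
      exact Multiset.mem_map_of_mem _ (Finset.mem_univ_val j)
    exact (mem_roots'.mp h1).2
  · intro k
    have h1 : ∀ j, MvPolynomial.aeval f (MvPolynomial.esymm (Fin P.natDegree) ℤ j) ∈
        (Int.castRingHom ℂ).range := by
      intro j
      rw [MvPolynomial.aeval_esymm_eq_multiset_esymm, hf]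
      rcases le_or_gt j P.natDegree with hj | hj
      · have h2 := coeff_eq_esymm_roots_of_card hcard (k := P.natDegree - j)
          (by rw [hdeg]; omega)
        rw [hQm.leadingCoeff, one_mul, hdeg, show P.natDegree - (P.natDegree - j) = j by omega]
          at h2
        have h3 : Q.roots.esymm j = (-1) ^ j * Q.coeff (P.natDegree - j) := by
          rw [h2, ← mul_assoc, ← mul_pow]
          simp
        rw [h3, hQ, coeff_map]
        exact ⟨(-1) ^ j * P.coeff (P.natDegree - j), by simp⟩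
      · have h2 : Q.roots.esymm j = 0 := by
          unfold Multiset.esymm
          rw [Multiset.powersetCard_eq_empty]
          · simp
          · rw [hcard, hdeg]; exact hj
        rw [h2]
        exact ⟨0, by simp⟩
    obtain ⟨z, hz⟩ := psum_mem f h1 k
    refine ⟨z, ?_⟩
    have h3 : MvPolynomial.aeval f (MvPolynomial.psum (Fin P.natDegree) ℤ k) = ∑ j, f j ^ k := by
      unfold MvPolynomial.psum
      rw [map_sum]
      simp
    rw [← h3, ← hz]
    simp

/-! ### From logarithms to the product -/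

lemma sub_one_ge (L : ℝ) (x : ℝ) (hx : |x| = Real.exp L) : min |L| 1 / 2 ≤ |x - 1| := by
  have h1 : |Real.exp L - 1| ≤ |x - 1| := by
    rw [← hx]
    have := abs_abs_sub_abs_le_abs_sub x 1
    simpa using this
  refine le_trans ?_ h1
  rcases le_total 0 L with h | h
  · have h2 := Real.add_one_le_exp L
    rw [abs_of_nonneg h, abs_of_nonneg (by linarith)]
    have h3 : min L 1 ≤ L := min_le_left _ _
    have h4 : 0 ≤ min L 1 := le_min h zero_le_one
    linarith
  · -- here `exp L ≤ 1 / (1 + |L|)`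
    rw [abs_of_nonpos h]
    have h2 := Real.add_one_le_exp (-L)
    have h3 : 0 < Real.exp L := Real.exp_pos L
    have h4 : Real.exp (-L) * Real.exp L = 1 := by rw [← Real.exp_add]; simp
    have h5 : (1 - L) * Real.exp L ≤ 1 := by
      rw [← h4]
      exact mul_le_mul_of_nonneg_right (by linarith) h3.le
    have h6 : Real.exp L ≤ 1 := by
      have := Real.exp_le_exp.mpr h
      simpa using this
    rw [abs_of_nonpos (by linarith)]
    rcases le_total (-L) 1 with h7 | h7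
    · rw [min_eq_left h7]
      nlinarith
    · rw [min_eq_right h7]
      nlinarith

open Polynomial in
theorem result (m : ℕ) (hm : 0 < m) (P : Fin m → ℤ[X])
    (hmonic : ∀ i, (P i).Monic) (hdeg : ∀ i, 0 < (P i).natDegree)
    (hcop : ∀ i j, i ≠ j →
      IsCoprime ((P i).map (Int.castRingHom ℚ)) ((P j).map (Int.castRingHom ℚ)))
    (ρ : ℝ) (hρ : 1 ≤ ρ)
    (hroots : ∀ i, ∀ z : ℂ, ((P i).map (Int.castRingHom ℂ)).IsRoot z → ‖z‖ ≤ ρ)
    (D : ℕ) (hD : D = ∑ i, (P i).natDegree)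
    (b : Fin m → ℤ) (hb : ∀ i, b i ≠ 0)
    (N : ℕ)
    (hN : 8 * (D : ℝ) * ((Finset.univ.sup fun i => (b i).natAbs : ℕ) : ℝ) * ρ ^ D ≤ N) :
    1 / (4 * (D : ℝ) * (N : ℝ) ^ (D - 1)) ≤
        |(∏ i, ((((P i).eval (N : ℤ) : ℤ) : ℝ) ^ (b i))) - 1| ∧
      ∀ ε : ℝ, 0 ≤ ε →
        ((Finset.univ.sup fun i => (b i).natAbs : ℕ) : ℝ) /
          ((∏ i, |((b i : ℤ) : ℝ)|) * (∏ i, |(((P i).eval (N : ℤ) : ℤ) : ℝ)|)) ^ (1 + ε)
        ≤ |(∏ i, ((((P i).eval (N : ℤ) : ℤ) : ℝ) ^ (b i))) - 1| := by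
  classical
  set B : ℝ := ((Finset.univ.sup fun i => (b i).natAbs : ℕ) : ℝ) with hB
  have hbB : ∀ i, |((b i : ℤ) : ℝ)| ≤ B := by
    intro i
    have h1 : (b i).natAbs ≤ Finset.univ.sup fun i => (b i).natAbs :=
      Finset.le_sup (f := fun i => (b i).natAbs) (Finset.mem_univ i)
    have h2 : |((b i : ℤ) : ℝ)| = ((b i).natAbs : ℝ) := by rw [Nat.cast_natAbs, Int.cast_abs]
    rw [h2, hB]
    exact_mod_cast h1
  have hb1 : ∀ i, (1 : ℝ) ≤ |((b i : ℤ) : ℝ)| := fun i => by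
    exact_mod_cast Int.one_le_abs (hb i)
  have hB1 : 1 ≤ B := (hb1 ⟨0, hm⟩).trans (hbB ⟨0, hm⟩)
  choose f hf1 hf2 hf3 using fun i => exists_roots (P i) (hmonic i)
  -- the family of all roots
  let J := Σ i : Fin m, Fin (P i).natDegree
  let θ : J → ℂ := fun j => f j.1 j.2
  let β : J → ℤ := fun j => b j.1
  have hcardJ : Fintype.card J = D := by
    rw [hD]; simp [J]
  haveI : Nonempty J := ⟨⟨⟨0, hm⟩, ⟨0, hdeg _⟩⟩⟩
  have hD1 : 1 ≤ D := by
    rw [← hcardJ]; exact Fintype.card_pos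
  have hD1' : (1 : ℝ) ≤ D := by exact_mod_cast hD1
  have hθ : ∀ j, ‖θ j‖ ≤ ρ := fun j => hroots j.1 _ (hf2 j.1 j.2)
  have hfib : ∀ i j, θ i = θ j → β i = β j := by
    intro i j hij
    by_contra hne
    have h1 : i.1 ≠ j.1 := by
      intro h
      apply hne
      simp only [β, h]
    obtain ⟨u, v, huv⟩ := hcop i.1 j.1 h1
    have h2 : ((P i.1).map (Int.castRingHom ℂ)).eval (θ i) = 0 := hf2 i.1 i.2
    have h3 : ((P j.1).map (Int.castRingHom ℂ)).eval (θ i) = 0 := by
      rw [hij]; exact hf2 j.1 j.2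
    have hcomp : ∀ Q : ℤ[X], (Q.map (Int.castRingHom ℂ)) =
        (Q.map (Int.castRingHom ℚ)).map (algebraMap ℚ ℂ) := by
      intro Q
      rw [Polynomial.map_map]
      congr 1
    have h4 := congrArg (fun Q : ℚ[X] => (Q.map (algebraMap ℚ ℂ)).eval (θ i)) huv
    simp only [Polynomial.map_add, Polynomial.map_mul, ← hcomp, eval_add, eval_mul, h2, h3,
      mul_zero, add_zero, Polynomial.map_one, eval_one] at h4
    exact zero_ne_one h4
  obtain ⟨k₀, hk₀, hne⟩ := exists_power_sum_ne θ β (fun j => hb j.1) hfib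
  -- integrality of the power sums
  choose z hz using hf3
  have hs : ∀ k, ∑ j, (β j : ℂ) * θ j ^ k = ((∑ i, b i * z i k : ℤ) : ℂ) := by
    intro k
    rw [Fintype.sum_sigma]
    push_cast
    refine Finset.sum_congr rfl fun i _ => ?_
    rw [← hz i k, Finset.mul_sum]
  have hsk₀ : (∑ i, b i * z i k₀) ≠ 0 := by
    intro h
    apply hne
    rw [hs k₀, h]
    simp
  have hcore := core_bound θ β (N : ℝ) ρ B hρ hθ (fun j => hbB j.1) hB1
    (fun k => ∑ i, b i * z i k) hs k₀ hk₀ hsk₀ (by rw [hcardJ]; exact hN)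
  rw [hcardJ] at hcore
  -- size of `N`
  have hρD : ρ ≤ ρ ^ D := by
    calc ρ = ρ ^ 1 := (pow_one ρ).symm
      _ ≤ ρ ^ D := pow_le_pow_right₀ hρ hD1
  have hN1 : 8 * (D : ℝ) * ρ ≤ N := by
    refine le_trans ?_ hN
    have h1 : 8 * (D : ℝ) * ρ ≤ 8 * (D : ℝ) * B * ρ := by
      have : 0 ≤ 8 * (D : ℝ) * ρ := by positivity
      nlinarith
    refine h1.trans ?_
    exact mul_le_mul_of_nonneg_left hρD (by positivity)
  have hN8 : 8 * (D : ℝ) ≤ N := by nlinarith
  have hNpos : (0 : ℝ) < N := by linarith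
  have hN8' : 8 ≤ (N : ℝ) := by linarith
  have hρN : ρ ≤ N / 8 := by nlinarith
  -- the values
  have hval : ∀ i, |(((P i).eval (N : ℤ) : ℤ) : ℝ)| = ∏ j, ‖((N : ℝ) : ℂ) - f i j‖ := by
    intro i
    have h1 := hf1 i (N : ℤ)
    have h2 := congrArg norm h1
    rw [Complex.norm_intCast, norm_prod] at h2
    rw [h2]
    refine Finset.prod_congr rfl fun j _ => ?_
    push_cast
    rfl
  have hfac : ∀ i j, (N : ℝ) - ρ ≤ ‖((N : ℝ) : ℂ) - f i j‖ := by
    intro i j
    have h1 := norm_sub_norm_le ((N : ℝ) : ℂ) (f i j)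
    rw [Complex.norm_real, Real.norm_of_nonneg hNpos.le] at h1
    have h2 := hroots i _ (hf2 i j)
    linarith
  have hfacpos : ∀ i j, 0 < ‖((N : ℝ) : ℂ) - f i j‖ := fun i j =>
    lt_of_lt_of_le (by linarith) (hfac i j)
  have hvalpos : ∀ i, 0 < |(((P i).eval (N : ℤ) : ℤ) : ℝ)| := by
    intro i
    rw [hval i]
    exact Finset.prod_pos fun j _ => hfacpos i j
  set L : ℝ := ∑ j, (β j : ℝ) * Real.log ‖((N : ℝ) : ℂ) - θ j‖ with hL
  have habs : |∏ i, ((((P i).eval (N : ℤ) : ℤ) : ℝ) ^ (b i))| = Real.exp L := by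
    rw [Finset.abs_prod, hL, Fintype.sum_sigma, Real.exp_sum]
    refine Finset.prod_congr rfl fun i _ => ?_
    rw [abs_zpow, ← Real.rpow_intCast, Real.rpow_def_of_pos (hvalpos i)]
    congr 1
    rw [hval i, Real.log_prod (fun j _ => (hfacpos i j).ne'), Finset.sum_mul]
    refine Finset.sum_congr rfl fun j _ => ?_
    ring
  have hmain := sub_one_ge L _ habs
  have hpow : (1 : ℝ) ≤ (N : ℝ) ^ (D - 1) := one_le_pow₀ (by linarith)
  have hfirst : 1 / (4 * (D : ℝ) * (N : ℝ) ^ (D - 1)) ≤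
      |(∏ i, ((((P i).eval (N : ℤ) : ℤ) : ℝ) ^ (b i))) - 1| := by
    refine le_trans ?_ hmain
    have h1 : 1 / (2 * (D : ℝ) * (N : ℝ) ^ (D - 1)) ≤ 1 := by
      rw [div_le_one (by positivity)]
      nlinarith
    have h2 : 1 / (2 * (D : ℝ) * (N : ℝ) ^ (D - 1)) ≤ min |L| 1 := le_min hcore h1
    have h3 : 1 / (4 * (D : ℝ) * (N : ℝ) ^ (D - 1)) =
        (1 / (2 * (D : ℝ) * (N : ℝ) ^ (D - 1))) / 2 := by
      field_simp
      norm_num
    rw [h3]
    linarith
  refine ⟨hfirst, ?_⟩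
  intro ε hε
  refine le_trans ?_ hfirst
  -- lower bound for the product of the values
  have hprod : (7 / 8) * (N : ℝ) ^ D ≤ ∏ i, |(((P i).eval (N : ℤ) : ℤ) : ℝ)| := by
    have h1 : ((N : ℝ) - ρ) ^ D ≤ ∏ i, |(((P i).eval (N : ℤ) : ℤ) : ℝ)| := by
      calc ((N : ℝ) - ρ) ^ D = ∏ i : Fin m, ((N : ℝ) - ρ) ^ (P i).natDegree := by
            rw [Finset.prod_pow_eq_pow_sum, ← hD]
        _ ≤ ∏ i, |(((P i).eval (N : ℤ) : ℤ) : ℝ)| := by
            refine Finset.prod_le_prod (fun i _ => pow_nonneg (by linarith) _) ?_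
            intro i _
            rw [hval i]
            calc ((N : ℝ) - ρ) ^ (P i).natDegree = ∏ _j : Fin (P i).natDegree, ((N : ℝ) - ρ) := by
                  rw [Finset.prod_const, Finset.card_univ, Fintype.card_fin]
              _ ≤ _ := Finset.prod_le_prod (fun j _ => by linarith) (fun j _ => hfac i j)
    refine le_trans ?_ h1
    have h2 : (N : ℝ) - ρ = N * (1 + (-(ρ / N))) := by field_simp; ring
    have h3 : ρ / N ≤ 1 / 8 := by rw [div_le_iff₀ hNpos]; linarith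
    have h4 := one_add_mul_le_pow (a := -(ρ / N)) (by linarith) D
    have h5 : (D : ℝ) * (ρ / N) ≤ 1 / 8 := by
      rw [← mul_div_assoc, div_le_iff₀ hNpos]; linarith
    rw [h2, mul_pow]
    have h6 : (7 / 8 : ℝ) ≤ (1 + (-(ρ / N))) ^ D := by linarith
    have h7 : (0 : ℝ) < (N : ℝ) ^ D := by positivity
    nlinarith
  have hprodpos : 0 < ∏ i, |(((P i).eval (N : ℤ) : ℤ) : ℝ)| :=
    Finset.prod_pos fun i _ => hvalpos i
  have hbprod : B ≤ ∏ i, |((b i : ℤ) : ℝ)| := by
    have hne : (Finset.univ : Finset (Fin m)).Nonempty := ⟨⟨0, hm⟩, Finset.mem_univ _⟩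
    obtain ⟨i₀, hi, hi₀⟩ := Finset.exists_mem_eq_sup Finset.univ hne (fun i => (b i).natAbs)
    rw [hB, hi₀, Nat.cast_natAbs, Int.cast_abs, ← Finset.mul_prod_erase _ _ hi]
    have h3 : (1 : ℝ) ≤ ∏ j ∈ Finset.univ.erase i₀, |((b j : ℤ) : ℝ)| :=
      Finset.one_le_prod (fun j _ => hb1 j)
    exact le_mul_of_one_le_right (abs_nonneg _) h3
  set A : ℝ := ∏ i, |(((P i).eval (N : ℤ) : ℤ) : ℝ)| with hA
  set Bp : ℝ := ∏ i, |((b i : ℤ) : ℝ)| with hBp
  have hpowD : (N : ℝ) ^ D = N * (N : ℝ) ^ (D - 1) := by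
    rw [← pow_succ', Nat.sub_add_cancel hD1]
  have hA4 : 4 * (D : ℝ) * (N : ℝ) ^ (D - 1) ≤ A := by
    refine le_trans ?_ hprod
    rw [hpowD]
    nlinarith
  have hA1 : 1 ≤ A := by nlinarith
  have hX1 : 1 ≤ Bp * A := by nlinarith
  have hXpow : Bp * A ≤ (Bp * A) ^ (1 + ε) := by
    calc Bp * A = (Bp * A) ^ (1 : ℝ) := (Real.rpow_one _).symm
      _ ≤ (Bp * A) ^ (1 + ε) := Real.rpow_le_rpow_of_exponent_le hX1 (by linarith)
  have hBpos : 0 < B := by linarith
  have hBppos : 0 < Bp := by linarith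
  calc B / (Bp * A) ^ (1 + ε) ≤ B / (Bp * A) :=
        div_le_div_of_nonneg_left hBpos.le (by positivity) hXpow
    _ ≤ Bp / (Bp * A) := div_le_div_of_nonneg_right hbprod (by positivity)
    _ = 1 / A := by field_simp
    _ ≤ 1 / (4 * (D : ℝ) * (N : ℝ) ^ (D - 1)) :=
        one_div_le_one_div_of_le (by positivity) hA4

end Pool.Agent.Results.MP_4eb8d9_nt.PolynomialValues
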