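import Mathlib

set_option autoImplicit false

namespace Pool.Agent.Results.MP_4eb8d9_nt.UniformInM

open Finset

/-- The Lang-Waldschmidt inequality for the tuple `(a, b)` and the exponent `1 + ε`, with the
number `c` in the place of `C(ε) ^ m`. -/
def Ineq (c ε : ℝ) {m : ℕ} (a b : Fin m → ℤ) : Prop :=
  c * ((Finset.univ.sup fun i => (b i).natAbs : ℕ) : ℝ) /
      ((∏ i, |((b i : ℤ) : ℝ)|) * (∏ i, |((a i : ℤ) : ℝ)|)) ^ (1 + ε)
    ≤ |(∏ i, ((a i : ℝ) ^ (b i))) - 1|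

/-! ### Elementary lemmas -/

lemma prod_zpow_eq {ι : Type*} (c : ℝ) (hc : c ≠ 0) (s : Finset ι) (f : ι → ℤ) :
    ∏ i ∈ s, c ^ f i = c ^ (∑ i ∈ s, f i) := by
  classical
  induction s using Finset.induction_on with
  | empty => simp
  | insert i s hi ih => rw [Finset.prod_insert hi, Finset.sum_insert hi, ih, zpow_add₀ hc]

/-- For nonzero integers, `|∑ b_i| ≤ k ∏ |b_i|`. -/
lemma abs_sum_le {ι : Type*} (s : Finset ι) (b : ι → ℤ) (hb : ∀ i ∈ s, b i ≠ 0) :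
    |((∑ i ∈ s, b i : ℤ) : ℝ)| ≤ (s.card : ℝ) * ∏ i ∈ s, |((b i : ℤ) : ℝ)| := by
  classical
  have h1 : ∀ i ∈ s, |((b i : ℤ) : ℝ)| ≤ ∏ j ∈ s, |((b j : ℤ) : ℝ)| := by
    intro i hi
    rw [← Finset.mul_prod_erase s _ hi]
    have : (1 : ℝ) ≤ ∏ j ∈ s.erase i, |((b j : ℤ) : ℝ)| := by
      refine Finset.one_le_prod ?_
      intro j hj
      have := hb j (Finset.mem_of_mem_erase hj)
      exact_mod_cast Int.one_le_abs this
    nlinarith [abs_nonneg ((b i : ℤ) : ℝ)]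
  calc |((∑ i ∈ s, b i : ℤ) : ℝ)| = |∑ i ∈ s, ((b i : ℤ) : ℝ)| := by push_cast; rfl
    _ ≤ ∑ i ∈ s, |((b i : ℤ) : ℝ)| := Finset.abs_sum_le_sum_abs _ _
    _ ≤ ∑ i ∈ s, ∏ j ∈ s, |((b j : ℤ) : ℝ)| := Finset.sum_le_sum h1
    _ = _ := by rw [Finset.sum_const, nsmul_eq_mul]

lemma card_le_pow (k : ℕ) (c : ℕ) (hc : 2 ≤ c) (hk : k ≠ 0) : c * k ≤ c ^ k := by
  obtain ⟨n, rfl⟩ := Nat.exists_eq_succ_of_ne_zero hk
  have h : n + 1 ≤ 2 ^ n := Nat.lt_two_pow_self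
  calc c * (n + 1) ≤ c * 2 ^ n := Nat.mul_le_mul_left _ h
    _ ≤ c * c ^ n := Nat.mul_le_mul_left _ (Nat.pow_le_pow_left hc n)
    _ = c ^ (n + 1) := by ring

/-- A strictly increasing sequence of integers starting at `≥ 2` has product `≥ (m+1)!`. -/
lemma factorial_le_prod {m : ℕ} (f : Fin m → ℕ) (hf : StrictMono f) (h2 : ∀ i, 2 ≤ f i) :
    (m.factorial : ℝ) ≤ ∏ i, (f i : ℝ) := by
  have h : ∀ i : Fin m, (i : ℕ) + 2 ≤ f i := by
    intro i
    obtain ⟨n, hn⟩ := i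
    induction n with
    | zero => simpa using h2 ⟨0, hn⟩
    | succ n ih =>
      have h1 := ih (by omega)
      have h3 : f ⟨n, by omega⟩ < f ⟨n + 1, hn⟩ := hf (by simp [Fin.lt_def])
      simp only at h1 ⊢
      omega
  have h4 : m.factorial ≤ ∏ i : Fin m, f i := by
    calc m.factorial = ∏ i : Fin m, ((i : ℕ) + 1) := by
          rw [Fin.prod_univ_eq_prod_range (fun i => i + 1) m, Finset.prod_range_add_one_eq_factorial]
      _ ≤ ∏ i : Fin m, f i := Finset.prod_le_prod' (fun i _ => by have := h i; omega)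
  exact_mod_cast h4


/-! ### Merging equal bases -/

section Reduction

variable {m : ℕ} (a b : Fin m → ℤ)

/-- The fibre of `|a|` over `c`. -/
def fib (c : ℕ) : Finset (Fin m) := Finset.univ.filter fun i => (a i).natAbs = c

/-- The total exponent of `c`. -/
def tot (c : ℕ) : ℤ := ∑ i ∈ fib a c, b i

/-- The contribution of the fibre over `c` to `∏ |b i| |a i|`. -/
noncomputable def con (c : ℕ) : ℝ := ∏ i ∈ fib a c, (|((b i : ℤ) : ℝ)| * |((a i : ℤ) : ℝ)|)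

/-- The bases that survive. -/
def surv : Finset ℕ :=
  (Finset.univ.image fun i => (a i).natAbs).filter fun c => 2 ≤ c ∧ tot a b c ≠ 0

variable (ha : ∀ i, a i ≠ 0) (hb : ∀ i, b i ≠ 0)

include ha hb in
lemma one_le_con (c : ℕ) : 1 ≤ con a b c := by
  refine Finset.one_le_prod ?_
  intro i _
  have h1 : (1 : ℝ) ≤ |((b i : ℤ) : ℝ)| := by exact_mod_cast Int.one_le_abs (hb i)
  have h2 : (1 : ℝ) ≤ |((a i : ℤ) : ℝ)| := by exact_mod_cast Int.one_le_abs (ha i)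
  nlinarith

lemma con_eq (c : ℕ) :
    con a b c = (∏ i ∈ fib a c, |((b i : ℤ) : ℝ)|) * (c : ℝ) ^ (fib a c).card := by
  unfold con
  rw [Finset.prod_mul_distrib]
  congr 1
  rw [← Finset.prod_const]
  refine Finset.prod_congr rfl ?_
  intro i hi
  have : (a i).natAbs = c := by simpa [fib] using hi
  rw [← this, Nat.cast_natAbs, Int.cast_abs]

include hb in
lemma mul_tot_le_con (c : ℕ) (hc : 2 ≤ c) (ht : tot a b c ≠ 0) :
    (c : ℝ) * |((tot a b c : ℤ) : ℝ)| ≤ con a b c := by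
  have hne : (fib a c).card ≠ 0 := by
    intro h
    rw [Finset.card_eq_zero] at h
    apply ht
    simp [tot, h]
  have h1 := abs_sum_le (fib a c) b (fun i _ => hb i)
  have h2 : ((c * (fib a c).card : ℕ) : ℝ) ≤ ((c ^ (fib a c).card : ℕ) : ℝ) := by
    exact_mod_cast card_le_pow (fib a c).card c hc hne
  push_cast at h2
  rw [con_eq]
  have h3 : (0 : ℝ) ≤ ∏ i ∈ fib a c, |((b i : ℤ) : ℝ)| :=
    Finset.prod_nonneg (fun i _ => abs_nonneg _)
  calc (c : ℝ) * |((tot a b c : ℤ) : ℝ)|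
      ≤ (c : ℝ) * ((fib a c).card * ∏ i ∈ fib a c, |((b i : ℤ) : ℝ)|) :=
        mul_le_mul_of_nonneg_left h1 (by positivity)
    _ = (c * (fib a c).card) * ∏ i ∈ fib a c, |((b i : ℤ) : ℝ)| := by ring
    _ ≤ (c : ℝ) ^ (fib a c).card * ∏ i ∈ fib a c, |((b i : ℤ) : ℝ)| :=
        mul_le_mul_of_nonneg_right h2 h3
    _ = _ := by ring

include ha hb in
lemma mul_le_con (i : Fin m) :
    (((a i).natAbs : ℕ) : ℝ) * |((b i : ℤ) : ℝ)| ≤ con a b (a i).natAbs := by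
  unfold con
  have hi : i ∈ fib a (a i).natAbs := by simp [fib]
  rw [← Finset.mul_prod_erase _ _ hi]
  have h1 : (1 : ℝ) ≤ ∏ j ∈ (fib a (a i).natAbs).erase i,
      (|((b j : ℤ) : ℝ)| * |((a j : ℤ) : ℝ)|) := by
    refine Finset.one_le_prod ?_
    intro j _
    have h1 : (1 : ℝ) ≤ |((b j : ℤ) : ℝ)| := by exact_mod_cast Int.one_le_abs (hb j)
    have h2 : (1 : ℝ) ≤ |((a j : ℤ) : ℝ)| := by exact_mod_cast Int.one_le_abs (ha j)
    nlinarith
  have h2 : (((a i).natAbs : ℕ) : ℝ) = |((a i : ℤ) : ℝ)| := by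
    rw [Nat.cast_natAbs, Int.cast_abs]
  rw [h2]
  have h3 : (0 : ℝ) ≤ |((b i : ℤ) : ℝ)| * |((a i : ℤ) : ℝ)| := by positivity
  nlinarith

lemma prod_con_eq :
    (∏ i, |((b i : ℤ) : ℝ)|) * (∏ i, |((a i : ℤ) : ℝ)|) =
      ∏ c ∈ Finset.univ.image (fun i => (a i).natAbs), con a b c := by
  rw [← Finset.prod_mul_distrib]
  unfold con fib
  rw [Finset.prod_fiberwise_of_maps_to]
  intro i _
  exact Finset.mem_image_of_mem _ (Finset.mem_univ i)

include ha in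
lemma prod_zpow_eq_surv (hpos : 0 < ∏ i, ((a i : ℝ) ^ (b i))) :
    ∏ i, ((a i : ℝ) ^ (b i)) = ∏ c ∈ surv a b, (c : ℝ) ^ (tot a b c) := by
  have h1 : ∏ i, ((a i : ℝ) ^ (b i)) = ∏ i, ((((a i).natAbs : ℕ) : ℝ) ^ (b i)) := by
    rw [← abs_of_pos hpos, Finset.abs_prod]
    refine Finset.prod_congr rfl ?_
    intro i _
    rw [abs_zpow, Nat.cast_natAbs, Int.cast_abs]
  have h2 : ∏ i, ((((a i).natAbs : ℕ) : ℝ) ^ (b i)) =
      ∏ c ∈ Finset.univ.image (fun i => (a i).natAbs), (c : ℝ) ^ (tot a b c) := by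
    rw [← Finset.prod_fiberwise_of_maps_to
      (t := Finset.univ.image (fun i => (a i).natAbs)) (g := fun i => (a i).natAbs)
      (fun i _ => Finset.mem_image_of_mem _ (Finset.mem_univ i))]
    refine Finset.prod_congr rfl ?_
    intro c hc
    have hc0 : (c : ℝ) ≠ 0 := by
      obtain ⟨i, _, rfl⟩ := Finset.mem_image.mp hc
      have := ha i
      simpa using this
    unfold tot fib
    rw [← prod_zpow_eq _ hc0]
    refine Finset.prod_congr rfl ?_
    intro i hi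
    rw [(Finset.mem_filter.mp hi).2]
  rw [h1, h2]
  symm
  unfold surv
  refine Finset.prod_subset (Finset.filter_subset _ _) ?_
  intro c hc hc'
  rw [Finset.mem_filter, not_and] at hc'
  have h3 := hc' hc
  by_cases h4 : 2 ≤ c
  · have : tot a b c = 0 := by
      by_contra h5
      exact h3 ⟨h4, h5⟩
    rw [this, zpow_zero]
  · have hc1 : c = 1 := by
      obtain ⟨i, _, rfl⟩ := Finset.mem_image.mp hc
      have h6 : (a i).natAbs ≠ 0 := by simpa using ha i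
      omega
    rw [hc1, Nat.cast_one, one_zpow]

omit ha hb in
lemma key_num (B β t : ℝ) (hB1 : 1 ≤ B) (hβ1 : 1 ≤ β) (ht : 1 ≤ t) :
    B * β ^ t ≤ β * (max B β) ^ t := by
  rcases le_total B β with h | h
  · rw [max_eq_right h]
    exact mul_le_mul_of_nonneg_right h (Real.rpow_nonneg (by linarith) t)
  · rw [max_eq_left h]
    have h1 : B ^ t = B * B ^ (t - 1) := by
      rw [← Real.rpow_one_add' (by linarith) (by linarith)]; ring_nf
    have h2 : β ^ t = β * β ^ (t - 1) := by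
      rw [← Real.rpow_one_add' (by linarith) (by linarith)]; ring_nf
    rw [h1, h2]
    have h3 : β ^ (t - 1) ≤ B ^ (t - 1) :=
      Real.rpow_le_rpow (by linarith) h (by linarith)
    have h4 : (0 : ℝ) ≤ B * β := by positivity
    calc B * (β * β ^ (t - 1)) = (B * β) * β ^ (t - 1) := by ring
      _ ≤ (B * β) * B ^ (t - 1) := mul_le_mul_of_nonneg_left h3 h4
      _ = β * (B * B ^ (t - 1)) := by ring

lemma final_num1 (B β c Y X B' t : ℝ) (hB1 : 1 ≤ B) (hβ1 : 1 ≤ β) (hc : 1 ≤ c) (hY : 0 < Y)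
    (hX : 0 < X) (hβB' : β ≤ B') (hM : Y * (c * max B β) ≤ X) (ht : 1 ≤ t) :
    B * ((β * c) * Y) ^ t ≤ B' * X ^ t := by
  have hMpos : 0 < max B β := lt_of_lt_of_le one_pos (hB1.trans (le_max_left _ _))
  have hkey := key_num B β t hB1 hβ1 ht
  have hβ0 : 0 ≤ β := by linarith
  have hc0 : 0 ≤ c := by linarith
  have h0 : 0 ≤ c ^ t * Y ^ t := mul_nonneg (Real.rpow_nonneg hc0 t) (Real.rpow_nonneg hY.le t)
  calc B * ((β * c) * Y) ^ t = (B * β ^ t) * (c ^ t * Y ^ t) := by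
        rw [Real.mul_rpow (mul_nonneg hβ0 hc0) hY.le, Real.mul_rpow hβ0 hc0]
        ring
    _ ≤ (β * (max B β) ^ t) * (c ^ t * Y ^ t) := mul_le_mul_of_nonneg_right hkey h0
    _ = β * (Y * (c * max B β)) ^ t := by
        rw [Real.mul_rpow hY.le (mul_nonneg hc0 hMpos.le), Real.mul_rpow hc0 hMpos.le]
        ring
    _ ≤ β * X ^ t := by
        refine mul_le_mul_of_nonneg_left ?_ (by linarith)
        exact Real.rpow_le_rpow (mul_nonneg hY.le (mul_nonneg hc0 hMpos.le)) hM (by linarith)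
    _ ≤ B' * X ^ t := mul_le_mul_of_nonneg_right hβB' (Real.rpow_nonneg hX.le t)

lemma final_num2 (B X X' B' t : ℝ) (hB1 : 1 ≤ B) (hX' : 0 < X') (hX : 0 < X) (hB'1 : 1 ≤ B')
    (hXB : X' * B ≤ X) (ht : 1 ≤ t) : B * X' ^ t ≤ B' * X ^ t := by
  have hB0 : 0 ≤ B := by linarith
  have h1 : B ≤ B ^ t := by
    calc B = B ^ (1 : ℝ) := (Real.rpow_one _).symm
      _ ≤ B ^ t := Real.rpow_le_rpow_of_exponent_le hB1 ht
  calc B * X' ^ t ≤ B ^ t * X' ^ t := mul_le_mul_of_nonneg_right h1 (Real.rpow_nonneg hX'.le t)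
    _ = (X' * B) ^ t := by rw [Real.mul_rpow hX'.le hB0]; ring
    _ ≤ X ^ t := Real.rpow_le_rpow (mul_nonneg hX'.le hB0) hXB (by linarith)
    _ = 1 * X ^ t := (one_mul _).symm
    _ ≤ B' * X ^ t := mul_le_mul_of_nonneg_right hB'1 (Real.rpow_nonneg hX.le t)

include ha hb in
/-- The key inequality of the reduction. -/
lemma ratio_le (hΛ : ∏ i, ((a i : ℝ) ^ (b i)) ≠ 1) (hpos : 0 < ∏ i, ((a i : ℝ) ^ (b i)))
    (t : ℝ) (ht : 1 ≤ t) :
    ((Finset.univ.sup fun i => (b i).natAbs : ℕ) : ℝ) /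
      ((∏ i, |((b i : ℤ) : ℝ)|) * (∏ i, |((a i : ℤ) : ℝ)|)) ^ t ≤
    (((surv a b).sup fun c => (tot a b c).natAbs : ℕ) : ℝ) /
      ((∏ c ∈ surv a b, |((tot a b c : ℤ) : ℝ)|) * (∏ c ∈ surv a b, (c : ℝ))) ^ t := by
  classical
  set S := surv a b with hS
  set I := Finset.univ.image (fun i => (a i).natAbs) with hI
  set B := Finset.univ.sup fun i => (b i).natAbs with hB
  set B' := S.sup fun c => (tot a b c).natAbs with hB'
  have hne : (Finset.univ : Finset (Fin m)).Nonempty := by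
    rw [Finset.univ_nonempty_iff]
    by_contra h
    rw [not_nonempty_iff] at h
    exact hΛ (by simp)
  obtain ⟨i₀, _, hi₀⟩ := Finset.exists_mem_eq_sup Finset.univ hne (fun i => (b i).natAbs)
  have hSne : S.Nonempty := by
    by_contra h
    rw [Finset.not_nonempty_iff_eq_empty] at h
    apply hΛ
    rw [prod_zpow_eq_surv a b ha hpos, ← hS, h, Finset.prod_empty]
  have hSsub : S ⊆ I := Finset.filter_subset _ _
  have hSmem : ∀ c ∈ S, 2 ≤ c ∧ tot a b c ≠ 0 := fun c hc => (Finset.mem_filter.mp hc).2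
  have htot1 : ∀ c ∈ S, (1 : ℝ) ≤ |((tot a b c : ℤ) : ℝ)| := fun c hc => by
    exact_mod_cast Int.one_le_abs (hSmem c hc).2
  have hB'1 : (1 : ℝ) ≤ B' := by
    obtain ⟨c, hc⟩ := hSne
    have h1 : (tot a b c).natAbs ≤ B' := Finset.le_sup (f := fun c => (tot a b c).natAbs) hc
    have h2 : 1 ≤ (tot a b c).natAbs := Int.natAbs_pos.mpr (hSmem c hc).2
    exact_mod_cast h2.trans h1
  have hBi : (B : ℝ) = |((b i₀ : ℤ) : ℝ)| := by
    rw [hB, hi₀, Nat.cast_natAbs, Int.cast_abs]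
  have hB1 : (1 : ℝ) ≤ B := by
    rw [hBi]; exact_mod_cast Int.one_le_abs (hb i₀)
  set c₀ := (a i₀).natAbs with hc₀
  have hc₀I : c₀ ∈ I := Finset.mem_image_of_mem _ (Finset.mem_univ i₀)
  have hc₀1 : (1 : ℝ) ≤ c₀ := by
    have : 1 ≤ (a i₀).natAbs := Int.natAbs_pos.mpr (ha i₀)
    exact_mod_cast this
  have hcon₀ : (c₀ : ℝ) * B ≤ con a b c₀ := by
    rw [hBi]; exact mul_le_con a b ha hb i₀
  -- the two products
  rw [prod_con_eq a b, ← Finset.prod_mul_distrib]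
  set X := ∏ c ∈ I, con a b c with hX
  set X' := ∏ c ∈ S, (|((tot a b c : ℤ) : ℝ)| * (c : ℝ)) with hX'
  have hX'pos : 0 < X' := by
    refine Finset.prod_pos fun c hc => ?_
    have h1 := htot1 c hc
    have h2 : (2 : ℝ) ≤ c := by exact_mod_cast (hSmem c hc).1
    nlinarith
  have hXpos : 0 < X := Finset.prod_pos fun c _ => lt_of_lt_of_le one_pos (one_le_con a b ha hb c)
  have hfac : ∀ c ∈ S, |((tot a b c : ℤ) : ℝ)| * (c : ℝ) ≤ con a b c := fun c hc => by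
    have := mul_tot_le_con a b hb c (hSmem c hc).1 (hSmem c hc).2
    linarith [mul_comm (c : ℝ) |((tot a b c : ℤ) : ℝ)|]
  rw [div_le_div_iff₀ (Real.rpow_pos_of_pos hXpos t) (Real.rpow_pos_of_pos hX'pos t)]
  by_cases hmem : c₀ ∈ S
  · -- the base carrying the maximal exponent survives
    set Y := ∏ c ∈ S.erase c₀, (|((tot a b c : ℤ) : ℝ)| * (c : ℝ)) with hY
    have hYpos : 0 < Y := by
      refine Finset.prod_pos fun c hc => ?_
      have hc' := Finset.mem_of_mem_erase hc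
      have h1 := htot1 c hc'
      have h2 : (2 : ℝ) ≤ c := by exact_mod_cast (hSmem c hc').1
      nlinarith
    set β : ℝ := |((tot a b c₀ : ℤ) : ℝ)| with hβ
    have hβ1 : 1 ≤ β := htot1 c₀ hmem
    have hX'eq : X' = (β * c₀) * Y := by
      rw [hX', ← Finset.mul_prod_erase S _ hmem]
    have hYX : Y * con a b c₀ ≤ X := by
      rw [hX, ← Finset.mul_prod_erase I _ hc₀I, mul_comm]
      refine mul_le_mul_of_nonneg_left ?_ (by linarith [one_le_con a b ha hb c₀])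
      calc Y ≤ ∏ c ∈ S.erase c₀, con a b c := by
            refine Finset.prod_le_prod (fun c hc => by positivity) ?_
            intro c hc
            exact hfac c (Finset.mem_of_mem_erase hc)
        _ ≤ ∏ c ∈ I.erase c₀, con a b c := by
            refine Finset.prod_le_prod_of_subset_of_one_le
              (Finset.erase_subset_erase c₀ hSsub) ?_ ?_
            · intro c _; linarith [one_le_con a b ha hb c]
            · intro c _ _; exact one_le_con a b ha hb c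
    have hβB' : β ≤ B' := by
      have h1 : (tot a b c₀).natAbs ≤ B' :=
        Finset.le_sup (f := fun c => (tot a b c).natAbs) hmem
      have h2 : β = ((tot a b c₀).natAbs : ℝ) := by rw [hβ, Nat.cast_natAbs, Int.cast_abs]
      rw [h2]; exact_mod_cast h1
    -- M = max B β
    have hM : Y * (c₀ * max (B : ℝ) β) ≤ X := by
      refine le_trans ?_ hYX
      refine mul_le_mul_of_nonneg_left ?_ hYpos.le
      rcases le_total (B : ℝ) β with h | h
      · rw [max_eq_right h]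
        have := hfac c₀ hmem
        linarith [mul_comm (c₀ : ℝ) β]
      · rw [max_eq_left h]; exact hcon₀
    have hMpos : 0 < max (B : ℝ) β := lt_of_lt_of_le one_pos (hB1.trans (le_max_left _ _))
    rw [hX'eq]
    exact final_num1 B β c₀ Y X B' t hB1 hβ1 hc₀1 hYpos hXpos hβB' hM ht
  · -- it does not survive
    have hXB : X' * B ≤ X := by
      have h2 : S ⊆ I.erase c₀ := by
        intro c hc
        refine Finset.mem_erase.mpr ⟨?_, hSsub hc⟩
        rintro rfl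
        exact hmem hc
      have h3 : (B : ℝ) ≤ con a b c₀ := by nlinarith
      rw [hX, ← Finset.mul_prod_erase I _ hc₀I, mul_comm (con a b c₀)]
      refine mul_le_mul ?_ h3 (by linarith) ?_
      · calc X' ≤ ∏ c ∈ S, con a b c := by
              refine Finset.prod_le_prod (fun c hc => by positivity) ?_
              intro c hc
              exact hfac c hc
          _ ≤ ∏ c ∈ I.erase c₀, con a b c := by
              refine Finset.prod_le_prod_of_subset_of_one_le h2 ?_ ?_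
              · intro c _; linarith [one_le_con a b ha hb c]
              · intro c _ _; exact one_le_con a b ha hb c
      · exact Finset.prod_nonneg fun c _ => by linarith [one_le_con a b ha hb c]
    exact final_num2 B X X' B' t hB1 hX'pos hXpos hB'1 hXB ht

include ha hb in
/-- Every tuple with `0 < Λ ≠ 1` can be replaced by one whose bases are `2 ≤ a'_1 < a'_2 < ...`,
without changing `Λ` and without decreasing `B / (∏ |b_i| |a_i|) ^ t`. -/
lemma reduction (hΛ : ∏ i, ((a i : ℝ) ^ (b i)) ≠ 1) (hpos : 0 < ∏ i, ((a i : ℝ) ^ (b i))) :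
    ∃ (m' : ℕ) (a' b' : Fin m' → ℤ), StrictMono a' ∧ (∀ i, 2 ≤ a' i) ∧ (∀ i, b' i ≠ 0) ∧
      (∏ i, ((a' i : ℝ) ^ (b' i)) = ∏ i, ((a i : ℝ) ^ (b i))) ∧
      ((m'.factorial : ℝ) ≤ ∏ i, |((a' i : ℤ) : ℝ)|) ∧
      ∀ t : ℝ, 1 ≤ t →
        ((Finset.univ.sup fun i => (b i).natAbs : ℕ) : ℝ) /
          ((∏ i, |((b i : ℤ) : ℝ)|) * (∏ i, |((a i : ℤ) : ℝ)|)) ^ t ≤
        ((Finset.univ.sup fun i => (b' i).natAbs : ℕ) : ℝ) /
          ((∏ i, |((b' i : ℤ) : ℝ)|) * (∏ i, |((a' i : ℤ) : ℝ)|)) ^ t := by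
  classical
  set S := surv a b with hS
  have hSmem : ∀ c ∈ S, 2 ≤ c ∧ tot a b c ≠ 0 := fun c hc => (Finset.mem_filter.mp hc).2
  set e := S.orderEmbOfFin rfl with he
  have hemem : ∀ j, e j ∈ S := fun j => Finset.orderEmbOfFin_mem S rfl j
  have hmap : (Finset.univ : Finset (Fin S.card)).map e.toEmbedding = S :=
    Finset.map_orderEmbOfFin_univ S rfl
  have hprod : ∀ g : ℕ → ℝ, ∏ c ∈ S, g c = ∏ j, g (e j) := by
    intro g
    conv_lhs => rw [← hmap]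
    rw [Finset.prod_map]
    rfl
  have hsup : ∀ g : ℕ → ℕ, S.sup g = Finset.univ.sup fun j => g (e j) := by
    intro g
    conv_lhs => rw [← hmap]
    rw [Finset.sup_map]
    rfl
  have habs : ∀ c : ℕ, |(((c : ℕ) : ℤ) : ℝ)| = (c : ℝ) := by
    intro c; rw [Int.cast_natCast, abs_of_nonneg (Nat.cast_nonneg c)]
  refine ⟨S.card, fun j => ((e j : ℕ) : ℤ), fun j => tot a b (e j), ?_, ?_, ?_, ?_, ?_, ?_⟩
  · intro i j hij
    have h : e i < e j := e.strictMono hij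
    change ((e i : ℕ) : ℤ) < ((e j : ℕ) : ℤ)
    exact_mod_cast h
  · intro i
    change (2 : ℤ) ≤ ((e i : ℕ) : ℤ)
    exact_mod_cast (hSmem _ (hemem i)).1
  · intro i
    exact (hSmem _ (hemem i)).2
  · rw [prod_zpow_eq_surv a b ha hpos, hprod]
    simp
  · simp only [habs]
    exact factorial_le_prod (fun j => e j) e.strictMono (fun j => (hSmem _ (hemem j)).1)
  · intro t ht
    have h := ratio_le a b ha hb hΛ hpos t ht
    rw [← hS, hsup, hprod, hprod] at h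
    simpa only [habs] using h

include ha hb in
/-- The ratio is at most `1`. -/
lemma ratio_le_one (t : ℝ) (ht : 1 ≤ t) :
    ((Finset.univ.sup fun i => (b i).natAbs : ℕ) : ℝ) /
      ((∏ i, |((b i : ℤ) : ℝ)|) * (∏ i, |((a i : ℤ) : ℝ)|)) ^ t ≤ 1 := by
  rw [← Finset.prod_mul_distrib]
  have h1 : ∀ i, (1 : ℝ) ≤ |((b i : ℤ) : ℝ)| * |((a i : ℤ) : ℝ)| := by
    intro i
    have h1 : (1 : ℝ) ≤ |((b i : ℤ) : ℝ)| := by exact_mod_cast Int.one_le_abs (hb i)
    have h2 : (1 : ℝ) ≤ |((a i : ℤ) : ℝ)| := by exact_mod_cast Int.one_le_abs (ha i)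
    nlinarith
  set X := ∏ i, (|((b i : ℤ) : ℝ)| * |((a i : ℤ) : ℝ)|) with hX
  have hX1 : 1 ≤ X := Finset.one_le_prod (fun i _ => h1 i)
  have hXX : X ≤ X ^ t := by
    calc X = X ^ (1 : ℝ) := (Real.rpow_one _).symm
      _ ≤ X ^ t := Real.rpow_le_rpow_of_exponent_le hX1 ht
  rw [div_le_one (by positivity)]
  refine le_trans ?_ hXX
  rcases Finset.eq_empty_or_nonempty (Finset.univ : Finset (Fin m)) with h | h
  · rw [h, Finset.sup_empty]
    simp only [bot_eq_zero', Nat.cast_zero]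
    linarith
  · obtain ⟨i₀, hi, hi₀⟩ := Finset.exists_mem_eq_sup Finset.univ h (fun i => (b i).natAbs)
    rw [hi₀, Nat.cast_natAbs, Int.cast_abs, hX, ← Finset.mul_prod_erase _ _ hi]
    have h3 : (1 : ℝ) ≤ ∏ j ∈ Finset.univ.erase i₀, (|((b j : ℤ) : ℝ)| * |((a j : ℤ) : ℝ)|) :=
      Finset.one_le_prod (fun j _ => h1 j)
    have h2 : (1 : ℝ) ≤ |((a i₀ : ℤ) : ℝ)| := by exact_mod_cast Int.one_le_abs (ha i₀)
    have h4 : (0 : ℝ) ≤ |((b i₀ : ℤ) : ℝ)| := abs_nonneg _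
    have h5 : |((b i₀ : ℤ) : ℝ)| ≤ |((b i₀ : ℤ) : ℝ)| * |((a i₀ : ℤ) : ℝ)| :=
      le_mul_of_one_le_right h4 h2
    exact h5.trans (le_mul_of_one_le_right (h4.trans h5) h3)

end Reduction

/-- A positive sequence is bounded below by a positive constant on an initial segment. -/
lemma exists_lower (c : ℕ → ℝ) (hc : ∀ m, 0 < c m) (M : ℕ) :
    ∃ C₀ : ℝ, 0 < C₀ ∧ ∀ m < M, C₀ ≤ c m := by
  induction M with
  | zero => exact ⟨1, one_pos, fun m hm => absurd hm (Nat.not_lt_zero m)⟩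
  | succ M ih =>
    obtain ⟨C₀, h0, h1⟩ := ih
    refine ⟨min C₀ (c M), lt_min h0 (hc M), ?_⟩
    intro m hm
    rcases Nat.lt_succ_iff_lt_or_eq.mp hm with h | h
    · exact (min_le_left _ _).trans (h1 m h)
    · rw [h]; exact min_le_right _ _

/-- For fixed `C > 0` and `δ > 0` one has `(m!) ^ (-δ) ≤ C ^ m` for all large `m`. -/
lemma eventually_factorial (C δ : ℝ) (hC : 0 < C) (hδ : 0 < δ) :
    ∀ᶠ m : ℕ in Filter.atTop, ((m.factorial : ℕ) : ℝ) ^ (-δ) ≤ C ^ m := by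
  have h := FloorSemiring.tendsto_pow_div_factorial_atTop (C ^ (-(1 / δ)))
  have h1 : ∀ᶠ m : ℕ in Filter.atTop, (C ^ (-(1 / δ))) ^ m / ((m.factorial : ℕ) : ℝ) < 1 :=
    h.eventually (gt_mem_nhds one_pos)
  filter_upwards [h1] with m hm
  have hf : (0 : ℝ) < ((m.factorial : ℕ) : ℝ) := by exact_mod_cast Nat.factorial_pos m
  rw [div_lt_one hf] at hm
  have h2 : ((C ^ (-(1 / δ))) ^ m) ^ δ ≤ ((m.factorial : ℕ) : ℝ) ^ δ :=
    Real.rpow_le_rpow (by positivity) hm.le hδ.le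
  have h3 : ((C ^ (-(1 / δ))) ^ m) ^ δ = (C ^ m)⁻¹ := by
    rw [← Real.rpow_natCast, ← Real.rpow_mul hC.le, ← Real.rpow_mul hC.le,
      ← Real.rpow_natCast C m, ← Real.rpow_neg hC.le]
    congr 1
    field_simp
  rw [h3] at h2
  rw [Real.rpow_neg hf.le]
  rw [inv_le_comm₀ (by positivity) (by positivity)]
  exact h2

theorem result :
    -- the Lang-Waldschmidt statement, with `C(ε) ^ m`
    ((∀ ε : ℝ, 0 < ε → ∃ C : ℝ, 0 < C ∧
        ∀ (m : ℕ) (a b : Fin m → ℤ), (∀ i, a i ≠ 0) → (∀ i, b i ≠ 0) →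
          (∏ i, ((a i : ℝ) ^ (b i))) ≠ 1 → Ineq (C ^ m) ε a b) ↔
      -- the same with a constant that does not depend on `m`
      (∀ ε : ℝ, 0 < ε → ∃ C : ℝ, 0 < C ∧
        ∀ (m : ℕ) (a b : Fin m → ℤ), (∀ i, a i ≠ 0) → (∀ i, b i ≠ 0) →
          (∏ i, ((a i : ℝ) ^ (b i))) ≠ 1 → Ineq C ε a b)) ∧
    ((∀ ε : ℝ, 0 < ε → ∃ C : ℝ, 0 < C ∧
        ∀ (m : ℕ) (a b : Fin m → ℤ), (∀ i, a i ≠ 0) → (∀ i, b i ≠ 0) →
          (∏ i, ((a i : ℝ) ^ (b i))) ≠ 1 → Ineq (C ^ m) ε a b) ↔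
      -- the same with constants `c m` such that `(m!) ^ (-δ) = O(c m)` for every `δ > 0`,
      -- asked only when `2 ≤ a_1 < a_2 < ... < a_m`
      (∀ ε : ℝ, 0 < ε → ∃ c : ℕ → ℝ, (∀ m, 0 < c m) ∧
        (∀ δ : ℝ, 0 < δ → ∀ᶠ m : ℕ in Filter.atTop, ((m.factorial : ℕ) : ℝ) ^ (-δ) ≤ c m) ∧
        ∀ (m : ℕ) (a b : Fin m → ℤ), StrictMono a → (∀ i, 2 ≤ a i) → (∀ i, b i ≠ 0) →
          (∏ i, ((a i : ℝ) ^ (b i))) ≠ 1 → Ineq (c m) ε a b)) := by
  -- (ii) → (i)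
  have h21 : (∀ ε : ℝ, 0 < ε → ∃ C : ℝ, 0 < C ∧
        ∀ (m : ℕ) (a b : Fin m → ℤ), (∀ i, a i ≠ 0) → (∀ i, b i ≠ 0) →
          (∏ i, ((a i : ℝ) ^ (b i))) ≠ 1 → Ineq C ε a b) →
      (∀ ε : ℝ, 0 < ε → ∃ C : ℝ, 0 < C ∧
        ∀ (m : ℕ) (a b : Fin m → ℤ), (∀ i, a i ≠ 0) → (∀ i, b i ≠ 0) →
          (∏ i, ((a i : ℝ) ^ (b i))) ≠ 1 → Ineq (C ^ m) ε a b) := by
    intro h ε hε
    obtain ⟨C, hC, h1⟩ := h ε hε
    refine ⟨min C 1, lt_min hC one_pos, ?_⟩
    intro m a b ha hb hΛ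
    have h2 := h1 m a b ha hb hΛ
    have hm : m ≠ 0 := by
      rintro rfl
      exact hΛ (by simp)
    have h3 : (min C 1) ^ m ≤ C :=
      (pow_le_of_le_one (lt_min hC one_pos).le (min_le_right _ _) hm).trans (min_le_left _ _)
    unfold Ineq at h2 ⊢
    refine le_trans ?_ h2
    gcongr
  -- (i) → (iii)
  have h13 : (∀ ε : ℝ, 0 < ε → ∃ C : ℝ, 0 < C ∧
        ∀ (m : ℕ) (a b : Fin m → ℤ), (∀ i, a i ≠ 0) → (∀ i, b i ≠ 0) →
          (∏ i, ((a i : ℝ) ^ (b i))) ≠ 1 → Ineq (C ^ m) ε a b) →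
      (∀ ε : ℝ, 0 < ε → ∃ c : ℕ → ℝ, (∀ m, 0 < c m) ∧
        (∀ δ : ℝ, 0 < δ → ∀ᶠ m : ℕ in Filter.atTop, ((m.factorial : ℕ) : ℝ) ^ (-δ) ≤ c m) ∧
        ∀ (m : ℕ) (a b : Fin m → ℤ), StrictMono a → (∀ i, 2 ≤ a i) → (∀ i, b i ≠ 0) →
          (∏ i, ((a i : ℝ) ^ (b i))) ≠ 1 → Ineq (c m) ε a b) := by
    intro h ε hε
    obtain ⟨C, hC, h1⟩ := h ε hε
    refine ⟨fun m => C ^ m, fun m => pow_pos hC m, fun δ hδ => eventually_factorial C δ hC hδ, ?_⟩
    intro m a b _ ha hb hΛ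
    exact h1 m a b (fun i => by have := ha i; omega) hb hΛ
  -- (iii) → (ii)
  have h32 : (∀ ε : ℝ, 0 < ε → ∃ c : ℕ → ℝ, (∀ m, 0 < c m) ∧
        (∀ δ : ℝ, 0 < δ → ∀ᶠ m : ℕ in Filter.atTop, ((m.factorial : ℕ) : ℝ) ^ (-δ) ≤ c m) ∧
        ∀ (m : ℕ) (a b : Fin m → ℤ), StrictMono a → (∀ i, 2 ≤ a i) → (∀ i, b i ≠ 0) →
          (∏ i, ((a i : ℝ) ^ (b i))) ≠ 1 → Ineq (c m) ε a b) →
      (∀ ε : ℝ, 0 < ε → ∃ C : ℝ, 0 < C ∧
        ∀ (m : ℕ) (a b : Fin m → ℤ), (∀ i, a i ≠ 0) → (∀ i, b i ≠ 0) →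
          (∏ i, ((a i : ℝ) ^ (b i))) ≠ 1 → Ineq C ε a b) := by
    intro h ε hε
    obtain ⟨c, hc, hcδ, h1⟩ := h (ε / 2) (by linarith)
    obtain ⟨M, hM⟩ := Filter.eventually_atTop.mp (hcδ (ε / 2) (by linarith))
    obtain ⟨C₀, hC₀, hC₀'⟩ := exists_lower c hc M
    refine ⟨min C₀ 1, lt_min hC₀ one_pos, ?_⟩
    intro m a b ha hb hΛ
    set C := min C₀ 1 with hC
    have hCpos : 0 < C := lt_min hC₀ one_pos
    have hC1 : C ≤ 1 := min_le_right _ _
    unfold Ineq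
    rw [mul_div_assoc]
    rcases le_or_gt (∏ i, ((a i : ℝ) ^ (b i))) 0 with hneg | hpos
    · have h2 := ratio_le_one a b ha hb (1 + ε) (by linarith)
      have h3 : (1 : ℝ) ≤ |(∏ i, ((a i : ℝ) ^ (b i))) - 1| := by
        rw [abs_of_nonpos (by linarith)]; linarith
      refine le_trans ?_ h3
      calc C * _ ≤ 1 * 1 := mul_le_mul hC1 h2 (by positivity) zero_le_one
        _ = 1 := one_mul 1
    · obtain ⟨m', a', b', hmono, ha', hb', hΛ', hfac, hratio⟩ := reduction a b ha hb hΛ hpos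
      have h2 := h1 m' a' b' hmono ha' hb' (by rw [hΛ']; exact hΛ)
      unfold Ineq at h2
      rw [hΛ', mul_div_assoc] at h2
      refine le_trans (mul_le_mul_of_nonneg_left (hratio (1 + ε) (by linarith)) hCpos.le) ?_
      refine le_trans ?_ h2
      set X := (∏ i, |((b' i : ℤ) : ℝ)|) * (∏ i, |((a' i : ℤ) : ℝ)|) with hX
      set B := ((Finset.univ.sup fun i => (b' i).natAbs : ℕ) : ℝ) with hB
      have hb1 : (1 : ℝ) ≤ ∏ i, |((b' i : ℤ) : ℝ)| := Finset.one_le_prod (fun i _ => by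
        exact_mod_cast Int.one_le_abs (hb' i))
      have hf1 : (1 : ℝ) ≤ ((m'.factorial : ℕ) : ℝ) := by
        exact_mod_cast Nat.one_le_iff_ne_zero.mpr (Nat.factorial_ne_zero m')
      have hXf : ((m'.factorial : ℕ) : ℝ) ≤ X := by
        rw [hX]
        calc ((m'.factorial : ℕ) : ℝ) ≤ ∏ i, |((a' i : ℤ) : ℝ)| := hfac
          _ ≤ _ := le_mul_of_one_le_left (by linarith) hb1
      have hXpos : 0 < X := by linarith
      have hB0 : 0 ≤ B := Nat.cast_nonneg _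
      have hsplit : X ^ (1 + ε) = X ^ (1 + ε / 2) * X ^ (ε / 2) := by
        rw [← Real.rpow_add hXpos]; ring_nf
      have hkey : C * X ^ (-(ε / 2)) ≤ c m' := by
        rcases lt_or_ge m' M with h4 | h4
        · have h5 : X ^ (-(ε / 2)) ≤ 1 :=
            Real.rpow_le_one_of_one_le_of_nonpos (by linarith) (by linarith)
          calc C * X ^ (-(ε / 2)) ≤ C * 1 := mul_le_mul_of_nonneg_left h5 hCpos.le
            _ = C := mul_one C
            _ ≤ C₀ := min_le_left _ _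
            _ ≤ c m' := hC₀' m' h4
        · have h5 : X ^ (-(ε / 2)) ≤ ((m'.factorial : ℕ) : ℝ) ^ (-(ε / 2)) :=
            Real.rpow_le_rpow_of_nonpos (by linarith) hXf (by linarith)
          calc C * X ^ (-(ε / 2)) ≤ 1 * X ^ (-(ε / 2)) :=
                mul_le_mul_of_nonneg_right hC1 (Real.rpow_nonneg hXpos.le _)
            _ = X ^ (-(ε / 2)) := one_mul _
            _ ≤ _ := h5
            _ ≤ c m' := hM m' h4
      have h6 : C * (B / X ^ (1 + ε)) = (C * X ^ (-(ε / 2))) * (B / X ^ (1 + ε / 2)) := by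
        rw [hsplit, Real.rpow_neg hXpos.le]
        have h7 : X ^ (1 + ε / 2) ≠ 0 := (Real.rpow_pos_of_pos hXpos _).ne'
        have h8 : X ^ (ε / 2) ≠ 0 := (Real.rpow_pos_of_pos hXpos _).ne'
        field_simp
      rw [h6]
      exact mul_le_mul_of_nonneg_right hkey (div_nonneg hB0 (Real.rpow_nonneg hXpos.le _))
  exact ⟨⟨fun h => h32 (h13 h), h21⟩, ⟨h13, fun h => h21 (h32 h)⟩⟩

end Pool.Agent.Results.MP_4eb8d9_nt.UniformInM
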